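import Pool.Agent.W2helper78.LT.Asm2

/-!
Project LT: pieces ORB and DET.
-/

set_option autoImplicit false

namespace W78LT

open H974 Finset H342P H984P H984H TH992.L

/-! ### the boundary orbit -/

theorem orbd_states {n : ℕ} {F : Finset Edg} {σ : St} {p : ℕ}
    (hbox : ∀ s, inR 0 n 0 n (orb (↑F : Set Edg) σ s).1)
    (hinj : ∀ i j, i < p → j < p → orb (↑F : Set Edg) σ i = orb (↑F : Set Edg) σ j → i = j) :
    p ≤ nc4 σ (↑F : Set Edg) (Bx 0 0 n) := by
  classical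
  rw [p16_nc4]
  have h := Finset.card_le_card_of_injOn (s := range p)
    (t := (Bx 0 0 n ×ˢ (univ : Finset Q4)).filter
      (fun x => Reach (↑F : Set Edg) σ.1 x.1 ∧ DReach (↑F : Set Edg)ᶜ (face σ) (face x)))
    (fun i => orb (↑F : Set Edg) σ i) (by
      intro i _
      have hb := hbox i
      unfold inR at hb
      rw [Finset.mem_coe, mem_filter, mem_product]
      refine ⟨⟨?_, mem_univ _⟩, pb_reach _ _ _, pb_dreach _ _ _⟩
      unfold Bx
      rw [mem_product, mem_Icc, mem_Icc]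
      show (0 ≤ (orb (↑F : Set Edg) σ i).1.1 ∧ (orb (↑F : Set Edg) σ i).1.1 ≤ 0 + (n:ℤ)) ∧
        0 ≤ (orb (↑F : Set Edg) σ i).1.2 ∧ (orb (↑F : Set Edg) σ i).1.2 ≤ 0 + (n:ℤ)
      omega) (by
      intro i hi j hj hij
      rw [Finset.mem_coe, mem_range] at hi hj
      exact hinj i j hi hj hij)
  rwa [card_range] at h

theorem orbd : St_ORB := by
  classical
  intro n m F v hF hm0 hm hv
  obtain ⟨a, b, ha, hb, hmax⟩ := hv
  obtain ⟨c, d, hc, hd, hcd, h8⟩ := hm
  have h8' : 8 * m ^ 2 ≤ dsq a b := h8.trans (hmax c d hc hd hcd)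
  have hab : 2 * m ≤ |a.1 - b.1| ∨ 2 * m ≤ |a.2 - b.2| := by
    by_contra hcon
    push Not at hcon
    obtain ⟨h3, h4⟩ := hcon
    unfold dsq at h8'
    have h5 : (a.1 - b.1) ^ 2 < (2 * m) ^ 2 := sq_lt_sq' (by linarith [(abs_lt.1 h3).1]) (abs_lt.1 h3).2
    have h6 : (a.2 - b.2) ^ 2 < (2 * m) ^ 2 := sq_lt_sq' (by linarith [(abs_lt.1 h4).1]) (abs_lt.1 h4).2
    nlinarith
  have hane : a ≠ b := by
    rintro rfl
    simp only [sub_self, abs_zero] at hab
    omega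
  have hex : ∃ w, w ≠ v ∧ Reach (↑F : Set Edg) v w := by
    by_cases h3 : a = v
    · exact ⟨b, fun h4 => hane (h3.trans h4.symm), hb⟩
    · exact ⟨a, h3, ha⟩
  have hbox : ∀ w, Reach (↑F : Set Edg) v w → inR 0 n 0 n w := by
    intro w hw
    by_cases h3 : v = w
    · subst h3
      obtain ⟨w', h4, h5⟩ := hex
      exact pb_box hF h5.symm h4
    · exact pb_box hF hw h3
  obtain ⟨vL, hvL, hleft⟩ : ∃ vL, Reach (↑F : Set Edg) v vL ∧
      ∀ w, Reach (↑F : Set Edg) v w → vL.1 ≤ w.1 := by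
    have hne : ∃ k : ℕ, ∃ w, Reach (↑F : Set Edg) v w ∧ w.1 = k := by
      have h3 := hbox v (Reach.refl _ _)
      unfold inR at h3
      exact ⟨v.1.toNat, v, Reach.refl _ _, by omega⟩
    obtain ⟨w, hw, hwk⟩ := Nat.find_spec hne
    refine ⟨w, hw, fun w' hw' => ?_⟩
    have h3 := hbox w' hw'
    unfold inR at h3
    have h4 : Nat.find hne ≤ w'.1.toNat := Nat.find_min' hne ⟨w', hw', by omega⟩
    omega
  set σ : St := (vL, .nw) with hσ
  have hσ1 : σ.1 = vL := rfl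
  have hleft' : ∀ w, Reach (↑F : Set Edg) σ.1 w → σ.1.1 ≤ w.1 := by
    intro w hw
    exact hleft w (hvL.trans hw)
  have horb : ∀ s, Reach (↑F : Set Edg) v (orb (↑F) σ s).1 := fun s =>
    hvL.trans (pb_reach (↑F) σ s)
  have hextA := orb_extent (F := F) (σ := σ) rfl hleft' (hvL.symm.trans ha)
  have hextB := orb_extent (F := F) (σ := σ) rfl hleft' (hvL.symm.trans hb)
  obtain ⟨t1, t2, ht12, hfar⟩ : ∃ t1 t2 : ℕ, t1 ≤ t2 ∧
      (2 * m ≤ |(orb (↑F) σ t1).1.1 - (orb (↑F) σ t2).1.1| ∨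
        2 * m ≤ |(orb (↑F) σ t1).1.2 - (orb (↑F) σ t2).1.2|) := by
    have hsym : (∃ t1 t2 : ℕ, (2 * m ≤ |(orb (↑F) σ t1).1.1 - (orb (↑F) σ t2).1.1| ∨
        2 * m ≤ |(orb (↑F) σ t1).1.2 - (orb (↑F) σ t2).1.2|)) → ∃ t1 t2 : ℕ, t1 ≤ t2 ∧
      (2 * m ≤ |(orb (↑F) σ t1).1.1 - (orb (↑F) σ t2).1.1| ∨
        2 * m ≤ |(orb (↑F) σ t1).1.2 - (orb (↑F) σ t2).1.2|) := by
      rintro ⟨t1, t2, h⟩
      rcases le_total t1 t2 with h3 | h3
      · exact ⟨t1, t2, h3, h⟩
      · refine ⟨t2, t1, h3, ?_⟩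
        rw [abs_sub_comm, abs_sub_comm (orb (↑F) σ t2).1.2]
        exact h
    apply hsym
    obtain ⟨⟨ta, hta⟩, ⟨ta2, hta2⟩, ⟨ta3, hta3⟩⟩ := hextA
    obtain ⟨⟨tb, htb⟩, ⟨tb2, htb2⟩, ⟨tb3, htb3⟩⟩ := hextB
    have hla := hleft a ha
    have hlb := hleft b hb
    have h0 : (orb (↑F) σ 0).1.1 = vL.1 := rfl
    rcases hab with h3 | h3
    · rcases abs_cases (a.1 - b.1) with ⟨h4, h5⟩ | ⟨h4, h5⟩
      · refine ⟨ta, 0, Or.inl ?_⟩
        rw [h0]
        have := le_abs_self ((orb (↑F) σ ta).1.1 - vL.1)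
        omega
      · refine ⟨tb, 0, Or.inl ?_⟩
        rw [h0]
        have := le_abs_self ((orb (↑F) σ tb).1.1 - vL.1)
        omega
    · rcases abs_cases (a.2 - b.2) with ⟨h4, h5⟩ | ⟨h4, h5⟩
      · refine ⟨ta2, tb3, Or.inr ?_⟩
        have := le_abs_self ((orb (↑F) σ ta2).1.2 - (orb (↑F) σ tb3).1.2)
        omega
      · refine ⟨tb2, ta3, Or.inr ?_⟩
        have := le_abs_self ((orb (↑F) σ tb2).1.2 - (orb (↑F) σ ta3).1.2)
        omega
  obtain ⟨T, rfl⟩ : ∃ T, t2 = T + t1 := ⟨t2 - t1, by omega⟩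
  rw [orb_add] at hfar
  set σ1 : St := orb (↑F) σ t1 with hσ1'
  have hbox1 : ∀ s, inR 0 n 0 n (orb (↑F : Set Edg) σ1 s).1 := by
    intro s'
    have := horb (s' + t1)
    rw [orb_add] at this
    exact hbox _ this
  have hper := pb_period (n := n) (F := (↑F : Set Edg)) (σ := σ1) hbox1
  obtain ⟨p, hpd⟩ : ∃ p, p = Nat.find hper := ⟨_, rfl⟩
  have hp0 : 0 < p := by rw [hpd]; exact (Nat.find_spec hper).1
  have hpσ : orb (↑F : Set Edg) σ1 p = σ1 := by rw [hpd]; exact (Nat.find_spec hper).2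
  have hmin : ∀ k, 0 < k → k < p → orb (↑F : Set Edg) σ1 k ≠ σ1 := by
    intro k hk0 hk heq
    rw [hpd] at hk
    exact Nat.find_min hper hk ⟨hk0, heq⟩
  have hinj0 : ∀ i j, i < j → j < p → orb (↑F : Set Edg) σ1 i ≠ orb (↑F : Set Edg) σ1 j := by
    intro i j hij hj he
    refine hmin (j - i) (by omega) (by omega) ?_
    have h1 : (nxt (↑F : Set Edg))^[i] ((nxt (↑F : Set Edg))^[j - i] σ1) =
        (nxt (↑F : Set Edg))^[i] σ1 := by
      rw [← Function.iterate_add_apply]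
      have : i + (j - i) = j := by omega
      rw [this]
      exact he.symm
    exact ((nxt_bij (↑F : Set Edg)).injective.iterate i) h1
  have hinj : ∀ i j, i < p → j < p →
      orb (↑F : Set Edg) σ1 i = orb (↑F : Set Edg) σ1 j → i = j := by
    intro i j hi hj he
    rcases lt_trichotomy i j with h | h | h
    · exact absurd he (hinj0 i j h hj)
    · exact h
    · exact absurd he.symm (hinj0 j i h hi)
  have hT : orb (↑F : Set Edg) σ1 (T % p) = orb (↑F : Set Edg) σ1 T := by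
    have h1 : T = T % p + T / p * p := by
      have := Nat.mod_add_div T p
      rw [mul_comm] at this
      exact this.symm
    conv_rhs => rw [h1, orb_add, pb_period_mul hpσ]
  have hvLbox := hbox vL hvL
  unfold inR at hvLbox
  have hout := outer_left hF (σ := σ) rfl hleft' hvLbox.1.1 hvLbox.2.1
  have hEC : EC (↑F : Set Edg) v = EC (↑F) vL := by
    unfold EC
    ext e
    constructor
    · rintro ⟨he, h3⟩
      exact ⟨he, hvL.symm.trans h3⟩
    · rintro ⟨he, h3⟩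
      exact ⟨he, hvL.trans h3⟩
  have hout' : Outer (↑F) v (face σ1) := by
    unfold Outer at hout ⊢
    rw [hEC]
    have h3 := pb_dreach (↑F) σ t1
    rw [← hσ1'] at h3
    refine (h3.symm.mono ?_).trans hout
    apply Set.compl_subset_compl.2
    intro e he
    exact he.1
  have hfin := per_ge hF (v := v) (σ := σ1) (by rw [hσ1']; exact horb _) hout' hex
  refine ⟨σ1, p, T % p, ⟨hp0, hpσ, hinj, Nat.mod_lt _ hp0, ?_, hbox1,
    (orbd_states hbox1 hinj).trans hfin⟩⟩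
  rw [hT, det_sd_eq]
  rcases hfar with h | h
  · rcases abs_cases (σ1.1.1 - (orb (↑F) σ1 T).1.1) with ⟨h5, -⟩ | ⟨h5, -⟩ <;> omega
  · rcases abs_cases (σ1.1.2 - (orb (↑F) σ1 T).1.2) with ⟨h5, -⟩ | ⟨h5, -⟩ <;> omega

/-! ### good blocks -/

/-- A vertex near a vertex of a block is in the window of the block (one coordinate). -/
theorem wx_in {n W q x y : ℤ} (hW : 1 ≤ W) (hn : 3 * W ≤ n) (h1 : q * W ≤ x) (h2 : x < q * W + W)
    (hy0 : 0 ≤ y) (hyn : y ≤ n) (h3 : x - W ≤ y) (h4 : y ≤ x + W) :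
    wx n W q ≤ y ∧ y ≤ wx n W q + 3 * W := by
  unfold wx
  have e : (q - 1) * W = q * W - W := by ring
  rw [e]
  generalize q * W = z at *
  omega

theorem blk_le {W : ℤ} (hW : 1 ≤ W) (v : Vtx) :
    (blk W v).1 * W ≤ v.1 ∧ v.1 < (blk W v).1 * W + W ∧
      (blk W v).2 * W ≤ v.2 ∧ v.2 < (blk W v).2 * W + W := by
  have a1 : W * (v.1 / W) ≤ v.1 := Int.mul_ediv_self_le (by omega)
  have a2 : v.1 < W * (v.1 / W) + W := Int.lt_mul_ediv_self_add (by omega)
  have b1 : W * (v.2 / W) ≤ v.2 := Int.mul_ediv_self_le (by omega)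
  have b2 : v.2 < W * (v.2 / W) + W := Int.lt_mul_ediv_self_add (by omega)
  unfold blk
  simp only
  rw [mul_comm (v.1 / W), mul_comm (v.2 / W)]
  exact ⟨a1, a2, b1, b2⟩

theorem blk_in0 {n W : ℤ} (hW : 1 ≤ W) {v : Vtx} (hv : inR 0 n 0 n v) : Blk0 n W (blk W v) := by
  obtain ⟨h1, h2, h3, h4⟩ := blk_le hW v
  unfold inR at hv
  refine ⟨?_, by omega, ?_, by omega⟩
  · unfold blk
    exact Int.ediv_nonneg hv.1.1 (by omega)
  · unfold blk
    exact Int.ediv_nonneg hv.2.1 (by omega)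

theorem blk_far2 {W : ℤ} (hW : 1 ≤ W) {u v : Vtx} {k : ℕ} (h : ((k:ℤ) + 1) * W ≤ sd u v) :
    (k : ℤ) ≤ sd (blk W u) (blk W v) := by
  obtain ⟨a1, a2, a3, a4⟩ := blk_le hW u
  obtain ⟨b1, b2, b3, b4⟩ := blk_le hW v
  rw [det_sd_eq] at h ⊢
  have key : ∀ s t x y : ℤ, s * W ≤ x → x < s * W + W → t * W ≤ y → y < t * W + W →
      ((k:ℤ) + 1) * W ≤ y - x → (k:ℤ) ≤ t - s := by
    intro s t x y h1 h2 h3 h4 h5
    by_contra hcon
    push Not at hcon
    have h6 : (t - s) * W ≤ ((k:ℤ) - 1) * W := mul_le_mul_of_nonneg_right (by omega) (by omega)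
    have e1 : (t - s) * W = t * W - s * W := by ring
    have e2 : ((k:ℤ) - 1) * W = ((k:ℤ) + 1) * W - 2 * W := by ring
    omega
  have c1 := key _ _ _ _ a1 a2 b1 b2
  have c2 := key _ _ _ _ b1 b2 a1 a2
  have c3 := key _ _ _ _ a3 a4 b3 b4
  have c4 := key _ _ _ _ b3 b4 a3 a4
  have hor : ((k:ℤ) + 1) * W ≤ v.1 - u.1 ∨ ((k:ℤ) + 1) * W ≤ u.1 - v.1 ∨
      ((k:ℤ) + 1) * W ≤ v.2 - u.2 ∨ ((k:ℤ) + 1) * W ≤ u.2 - v.2 := by omega
  rcases hor with h | h | h | h
  · have := c1 h; omega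
  · have := c2 h; omega
  · have := c3 h; omega
  · have := c4 h; omega

/-- A piece of the orbit of extent `W` near a good block is long. -/
theorem good_piece {n W R R1 m : ℤ} {M : ℕ} (hp : ParW W R R1 m) (hn : 3 * W ≤ n)
    {F : Finset Edg} {σ : St} (hbox : ∀ s, inR 0 n 0 n (orb (↑F : Set Edg) σ s).1) {τ e : ℕ}
    (hτ : τ ≤ e) (hB : ¬ BadW n W R R1 m M (blk W (orb (↑F : Set Edg) σ τ).1) F)
    (hfar : W ≤ sd (orb (↑F : Set Edg) σ τ).1 (orb (↑F : Set Edg) σ e).1)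
    (hnear : ∀ s, τ ≤ s → s ≤ e → sd (orb (↑F : Set Edg) σ τ).1 (orb (↑F : Set Edg) σ s).1 ≤ W) :
    M ≤ e - τ := by
  classical
  obtain ⟨hR, hRR, hm, hW, hW2⟩ := hp
  have hW1 : 1 ≤ W := by omega
  obtain ⟨q, hq⟩ : ∃ q, q = blk W (orb (↑F : Set Edg) σ τ).1 := ⟨_, rfl⟩
  rw [← hq] at hB
  have hstep : ∀ s, sd (orb (↑F : Set Edg) σ s).1 (orb (↑F : Set Edg) σ (s + 1)).1 ≤ 1 := by
    intro s
    rw [orb_succ]
    exact sd_nxt _ _
  obtain ⟨q1, q2, q3, q4⟩ := blk_le hW1 (orb (↑F : Set Edg) σ τ).1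
  rw [← hq] at q1 q2 q3 q4
  -- vertices of the piece are in the window
  have hwin : ∀ s, τ ≤ s → s ≤ e → inR (wx n W q.1) (wx n W q.1 + 3 * W) (wx n W q.2)
      (wx n W q.2 + 3 * W) (orb (↑F : Set Edg) σ s).1 := by
    intro s h1 h2
    have h3 := hnear s h1 h2
    have h4 := hbox s
    rw [det_sd_eq] at h3
    unfold inR at h4 ⊢
    have k1 := wx_in (q := q.1) (y := (orb (↑F : Set Edg) σ s).1.1) hW1 hn q1 q2 (by omega)
      (by omega) (by omega) (by omega)
    have k2 := wx_in (q := q.2) (y := (orb (↑F : Set Edg) σ s).1.2) hW1 hn q3 q4 (by omega)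
      (by omega) (by omega) (by omega)
    exact ⟨k1, k2⟩
  obtain ⟨i, i1, i2, i3, i4⟩ := det_first (fun s => (orb (↑F : Set Edg) σ s).1) hstep (w := m) hτ
    (by show m ≤ sd _ _; omega)
  -- a vertex outside of the layer
  obtain ⟨s, s1, s2, s3⟩ : ∃ s, τ ≤ s ∧ s ≤ i ∧ R1 ≤ wd n W q (orb (↑F : Set Edg) σ s).1 := by
    by_contra hcon
    push Not at hcon
    apply hB
    right
    refine ⟨(orb (↑F : Set Edg) σ τ).1, (orb (↑F : Set Edg) σ i).1, i3, ?_⟩
    have hadd : ∀ r, orb (↑F : Set Edg) (orb (↑F : Set Edg) σ τ) r =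
        orb (↑F : Set Edg) σ (r + τ) := fun r => (orb_add _ _ _ _).symm
    have h1 := orb_reach (F := (↑F : Set Edg)) (W := ({e | e ∈ Win n W q ∧
      wd n W q (src e) < R1 ∧ wd n W q (tgt e) < R1} : Set Edg) ∪ (↑F : Set Edg)ᶜ)
      (σ := orb (↑F : Set Edg) σ τ) (T := i - τ) (by
        intro r hr
        by_cases he : ae (orb (↑F : Set Edg) (orb (↑F : Set Edg) σ τ) r) ∈ (↑F : Set Edg)
        · left
          have h2 := hcon (r + τ) (by omega) (by omega)
          have h3 := hcon (r + 1 + τ) (by omega) (by omega)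
          have h4 := hwin (r + τ) (by omega) (by omega)
          have h5 := hwin (r + 1 + τ) (by omega) (by omega)
          rw [← hadd] at h2 h3 h4 h5
          rw [orb_succ, nxt_open he] at h3 h5
          rcases pb_ends (orb (↑F : Set Edg) (orb (↑F : Set Edg) σ τ) r) with ⟨h6, h7⟩ | ⟨h6, h7⟩
          · exact ⟨mem_RE_ends (by rw [h6]; exact h4) (by rw [h7]; exact h5),
              by rw [h6]; exact h2, by rw [h7]; exact h3⟩
          · exact ⟨mem_RE_ends (by rw [h6]; exact h5) (by rw [h7]; exact h4),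
              by rw [h6]; exact h3, by rw [h7]; exact h2⟩
        · exact Or.inr he) le_rfl
    rw [hadd, Nat.sub_add_cancel i1] at h1
    refine h1.mono ?_
    rintro e' ⟨he, h2 | h2⟩
    · refine ⟨?_, h2.2⟩
      rw [Finset.coe_inter]
      exact ⟨he, h2.1⟩
    · exact absurd he h2
  have s4 := i4 s s1 s2
  have s5 : sd (orb (↑F : Set Edg) σ τ).1 (orb (↑F : Set Edg) σ s).1 ≤ m := by
    rw [max_eq_left (by omega)] at s4
    exact s4
  have htri := det_sd_tri (orb (↑F : Set Edg) σ τ).1 (orb (↑F : Set Edg) σ s).1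
    (orb (↑F : Set Edg) σ e).1
  have hse : s ≤ e := by omega
  have hfar2 : Far (orb (↑F : Set Edg) σ s).1 R (orb (↑F : Set Edg) (orb (↑F : Set Edg) σ s)
      (e - s)).1 := by
    rw [← orb_add, Nat.sub_add_cancel hse]
    exact det_far (by omega)
  have hex : ∃ t, Far (orb (↑F : Set Edg) σ s).1 R
      (orb (↑F : Set Edg) (orb (↑F : Set Edg) σ s) t).1 := ⟨e - s, hfar2⟩
  have ht0 : Nat.find hex ≤ e - s := Nat.find_min' hex hfar2
  obtain ⟨⟨c1, c2⟩, c3, c4⟩ : (R1 ≤ (orb (↑F : Set Edg) σ s).1.1 - wx n W q.1 ∧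
      R1 ≤ wx n W q.1 + 3 * W - (orb (↑F : Set Edg) σ s).1.1) ∧
      R1 ≤ (orb (↑F : Set Edg) σ s).1.2 - wx n W q.2 ∧
      R1 ≤ wx n W q.2 + 3 * W - (orb (↑F : Set Edg) σ s).1.2 := by
    unfold wd bdr at s3
    rw [le_min_iff, le_min_iff, le_min_iff] at s3
    exact s3
  have hcong : orb (↑(F ∩ Win n W q) : Set Edg) (orb (↑F : Set Edg) σ s) (Nat.find hex) =
      orb (↑F : Set Edg) (orb (↑F : Set Edg) σ s) (Nat.find hex) := by
    refine orb_congr (T := Nat.find hex) ?_ le_rfl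
    intro e' he'
    rw [mem_Exm] at he'
    obtain ⟨r, hr, rfl⟩ := he'
    have hnf := Nat.find_min hex hr
    generalize orb (↑F : Set Edg) (orb (↑F : Set Edg) σ s) r = w at hnf ⊢
    unfold Far at hnf
    push Not at hnf
    have hin : ae w ∈ Win n W q := by
      unfold Win
      obtain ⟨⟨x, y⟩, c⟩ := w
      cases c
      · rw [ae_ne, mem_RE_true]; simp only at hnf; omega
      · rw [ae_nw, mem_RE_false]; simp only at hnf; omega
      · rw [ae_sw, mem_RE_true]; simp only at hnf; omega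
      · rw [ae_se, mem_RE_false]; simp only at hnf; omega
    rw [Finset.coe_inter]
    constructor
    · intro h
      exact ⟨h, hin⟩
    · rintro ⟨h, -⟩
      exact h
  by_contra hlt
  push Not at hlt
  apply hB
  left
  refine ⟨orb (↑F : Set Edg) σ s, Nat.find hex, ?_, ?_, by omega⟩
  · unfold inR
    omega
  · rw [hcong]
    exact Nat.find_spec hex

theorem det : St_DET := by
  classical
  intro n W R R1 m D M k F v σ p T hp hn hF hk hD ho hch
  have hW1 : 1 ≤ W := by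
    have := hp.hW
    have := hp.hR
    have := hp.hm
    omega
  obtain ⟨hp0, hper, -, hT, hfar, hbox, -⟩ := ho
  have hstep : ∀ s, sd (orb (↑F : Set Edg) σ s).1 (orb (↑F : Set Edg) σ (s + 1)).1 ≤ 1 := by
    intro s
    rw [orb_succ]
    exact sd_nxt _ _
  have hβ : ∀ r, sd (blk W (orb (↑F : Set Edg) σ r).1) (blk W (orb (↑F : Set Edg) σ (r + 1)).1) ≤ 1 :=
    fun r => blk_step hW1 ((hstep r).trans hW1)
  have hfar' : ((k:ℤ) + 1) * W ≤ sd (orb (↑F : Set Edg) σ 0).1 (orb (↑F : Set Edg) σ T).1 :=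
    hD.trans hfar
  obtain ⟨Q, hQ, hQc, hQv⟩ := chain (β := fun r => blk W (orb (↑F : Set Edg) σ r).1) hβ T k 0
    (Nat.zero_le T) (blk_far2 hW1 hfar')
  have hblk : ∀ q ∈ Q, Blk0 n W q := by
    intro q hq
    obtain ⟨τ, -, -, h⟩ := hQv q hq
    rw [← h]
    exact blk_in0 hW1 (hbox τ)
  obtain ⟨c, hc⟩ := pigeon (Q := Q) (k := k + 1) hQc.ge
  obtain ⟨Qc, hQcd⟩ : ∃ Qc, Qc = Q.filter (fun q => cls q = c) := ⟨_, rfl⟩
  rw [← hQcd] at hc
  have hsub : Qc ⊆ Q := by rw [hQcd]; exact filter_subset _ _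
  have hcl : ∀ q ∈ Qc, cls q = c := by
    intro q hq
    rw [hQcd, mem_filter] at hq
    exact hq.2
  have hsplit := card_filter_add_card_filter_not (s := Qc) (fun q => BadW n W R R1 m M q F)
  have hbadc : ¬ (k + 1 ≤ 98 * (Qc.filter (fun q => BadW n W R R1 m M q F)).card) := by
    intro hb
    apply hch
    refine ⟨blk W (orb (↑F : Set Edg) σ 0).1, blk_in0 hW1 (hbox 0), Q, hQ, hQc,
      Qc.filter (fun q => BadW n W R R1 m M q F), ?_, ?_, hb, ?_⟩
    · rw [mem_powerset]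
      exact (filter_subset _ _).trans hsub
    · intro q hq r hr
      rw [hcl q (mem_filter.mp hq).1, hcl r (mem_filter.mp hr).1]
    · intro q hq
      rw [mem_filter] at hq
      exact ⟨hblk q (hsub hq.1), hq.2⟩
  have hct := count_times (β := fun r => blk W (orb (↑F : Set Edg) σ r).1) (n := p - 1) (M := M)
    (G := Qc.filter (fun q => ¬ BadW n W R R1 m M q F)) (by
      intro q hq r hr
      rw [hcl q (mem_filter.mp hq).1, hcl r (mem_filter.mp hr).1]) (by
      intro q hq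
      rw [mem_filter] at hq
      obtain ⟨τ, -, hτT, hτ⟩ := hQv q (hsub hq.1)
      -- a far time
      obtain ⟨l, l1, l2, l3⟩ : ∃ l, τ ≤ l ∧ l ≤ p ∧
          W ≤ sd (orb (↑F : Set Edg) σ τ).1 (orb (↑F : Set Edg) σ l).1 := by
        by_cases h : W ≤ sd (orb (↑F : Set Edg) σ τ).1 (orb (↑F : Set Edg) σ T).1
        · exact ⟨T, hτT, hT.le, h⟩
        · refine ⟨p, by omega, le_rfl, ?_⟩
          rw [hper]
          have htri := det_sd_tri (orb (↑F : Set Edg) σ 0).1 (orb (↑F : Set Edg) σ τ).1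
            (orb (↑F : Set Edg) σ T).1
          have h2 : (2:ℤ) * W ≤ ((k:ℤ) + 1) * W :=
            mul_le_mul_of_nonneg_right (by omega) (by omega)
          rw [det_sd_comm]
          have h3 : (orb (↑F : Set Edg) σ 0) = σ := rfl
          rw [h3] at htri hfar'
          omega
      obtain ⟨e, e1, e2, e3, e4⟩ := det_first (fun s => (orb (↑F : Set Edg) σ s).1) hstep
        (w := W) l1 l3
      have hnear : ∀ s, τ ≤ s → s ≤ e →
          sd (orb (↑F : Set Edg) σ τ).1 (orb (↑F : Set Edg) σ s).1 ≤ W := by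
        intro s h1 h2
        have := e4 s h1 h2
        rwa [max_eq_left (by omega)] at this
      have hM := good_piece hp hn hbox e1 (by rw [hτ]; exact hq.2) e3 hnear
      have hsub2 : Finset.Ico τ e ⊆ (range (p - 1 + 1)).filter
          (fun t => sd (blk W (orb (↑F : Set Edg) σ t).1) q ≤ 1) := by
        intro t ht
        rw [mem_Ico] at ht
        rw [mem_filter, mem_range]
        refine ⟨by omega, ?_⟩
        rw [← hτ, det_sd_comm]
        exact blk_step hW1 (hnear t ht.1 ht.2.le)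
      have := card_le_card hsub2
      rw [Nat.card_Ico] at this
      omega)
  have hpp : p - 1 + 1 = p := by omega
  rw [hpp] at hct
  set g := (Qc.filter (fun q => ¬ BadW n W R R1 m M q F)).card with hg
  have h1 : k + 1 ≤ 98 * g := by omega
  calc (k + 1) * M ≤ 98 * g * M := Nat.mul_le_mul_right M h1
    _ = 98 * (g * M) := by ring
    _ ≤ 98 * p := Nat.mul_le_mul_left _ hct

end W78LT
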