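import Pool.Agent.W2helper78.LT.Stm

/-!
Project LT: assembly of the lower bound (piece ASM).
-/

set_option autoImplicit false

namespace W78LT

open H974 Finset H342P H984P H984H TH992.L

theorem hok : Ok (fun _ : Edg => (1/2:ℝ)) := fun _ => ⟨by norm_num, by norm_num⟩

theorem near_card {a : ℕ} (ha : 1 ≤ a) (x : ℤ) (I : Finset ℕ) :
    (I.filter (fun i : ℕ => |(i:ℤ) * a - x| ≤ 5 * (a:ℤ))).card ≤ 11 := by
  classical
  have haz : (0:ℤ) < a := by exact_mod_cast ha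
  obtain ⟨c, hc⟩ : ∃ c, c = x / a := ⟨_, rfl⟩
  have h1 : a * c ≤ x := by rw [hc]; exact Int.mul_ediv_self_le haz.ne'
  have h2 : x < a * c + a := by rw [hc]; exact Int.lt_mul_ediv_self_add haz
  have hmap : ∀ i ∈ I.filter (fun i : ℕ => |(i:ℤ) * a - x| ≤ 5 * (a:ℤ)),
      (i:ℤ) ∈ Finset.Icc (c - 5) (c + 5) := by
    intro i hi
    rw [mem_filter, abs_le] at hi
    obtain ⟨-, h3, h4⟩ := hi
    rw [mem_Icc]
    constructor
    · by_contra hcon
      push Not at hcon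
      have : (i:ℤ) * a ≤ (c - 6) * a := mul_le_mul_of_nonneg_right (by omega) haz.le
      have e : (c - 6) * (a:ℤ) = a * c - 6 * a := by ring
      omega
    · by_contra hcon
      push Not at hcon
      have : (c + 6) * a ≤ (i:ℤ) * a := mul_le_mul_of_nonneg_right (by omega) haz.le
      have e : (c + 6) * (a:ℤ) = a * c + 6 * a := by ring
      omega
  have h3 := Finset.card_le_card_of_injOn (s := I.filter (fun i : ℕ => |(i:ℤ) * a - x| ≤ 5 * (a:ℤ)))
    (t := Finset.Icc (c - 5) (c + 5)) (fun i : ℕ => (i:ℤ)) hmap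
    (fun i _ j _ h => Int.ofNat.inj h)
  refine h3.trans (le_of_eq ?_)
  rw [Int.card_Icc]
  omega

/-- The two-arm probability together with the tube event. -/
theorem two_tube (hNF : St_NF) (hEVL : St_EVL) (hEVP : St_EVP) {Cu : ℝ} (hCu : 0 < Cu)
    (hU : TwoUp Cu (1/4)) {n a t : ℕ} (hA : Adm n a t) {u f : Vtx} (hf : Inc u f)
    (h1 : 0 ≤ u.1) (h2 : u.1 ≤ 16 * (t * a) + 2 * a) (h3 : 0 ≤ u.2) (h4 : u.2 ≤ 2 * a) :
    (TH992.T.q0 ^ 2) ^ 23 *
      PP (RE 0 n 0 n) (fun F => Two u f (rr a u) (↑F) ∧ EE n a t F) ≤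
      ph Cu (1/4) (rr a u) * PP (RE 0 n 0 n) (EE n a t) := by
  classical
  have q0 := TH992.T.q0_pos
  have q1 := TH992.T.q0_le
  have hq : 0 < TH992.T.q0 ^ 2 := by positivity
  have hq1 : TH992.T.q0 ^ 2 ≤ 1 := pow_le_one₀ q0.le q1
  obtain ⟨r, hr⟩ : ∃ r, r = rr a u := ⟨_, rfl⟩
  rw [← hr]
  have hra : r ≤ a := by rw [hr]; exact min_le_left _ _
  have hr1 : r ≤ u.1 := by rw [hr]; exact (min_le_right _ _).trans (min_le_left _ _)
  have hr2 : r ≤ u.2 := by rw [hr]; exact (min_le_right _ _).trans (min_le_right _ _)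
  have hP0 : 0 ≤ PP (RE 0 n 0 n) (EE n a t) := Pr_nonneg hok _ _
  by_cases hr0 : r ≤ 0
  · have e1 : ph Cu (1/4) r = 1 := by unfold ph; rw [if_pos hr0]
    rw [e1, one_mul]
    have e2 : PP (RE 0 n 0 n) (fun F => Two u f r (↑F) ∧ EE n a t F) ≤
        PP (RE 0 n 0 n) (EE n a t) := Pr_mono hok fun F _ h => h.2
    have e3 : (TH992.T.q0 ^ 2) ^ 23 ≤ 1 := pow_le_one₀ hq.le hq1
    calc (TH992.T.q0 ^ 2) ^ 23 * PP (RE 0 n 0 n) (fun F => Two u f r (↑F) ∧ EE n a t F)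
        ≤ 1 * PP (RE 0 n 0 n) (EE n a t) :=
          mul_le_mul e3 e2 (Pr_nonneg hok _ _) zero_le_one
      _ = _ := one_mul _
  · push Not at hr0
    obtain ⟨T1, T2, sO, sD, k1, k2, k3, k4, k5, k6⟩ := hEVL n a t hA
    obtain ⟨C, hC, hev⟩ := hEVP
    obtain ⟨v1, v2, v3, -⟩ := hev n a t hA
    obtain ⟨ha, ht, hn⟩ := hA
    have hnz : 16 * ((t:ℤ) * a) + 3 * a + 1 ≤ n := by exact_mod_cast hn
    obtain ⟨K, hK⟩ : ∃ K, K = RE (u.1 - r) (u.1 + r) (u.2 - r) (u.2 + r) := ⟨_, rfl⟩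
    have hKS : K ⊆ RE 0 n 0 n := by
      rw [hK]
      have hta : (0:ℤ) ≤ (t:ℤ) * a := by positivity
      exact RE_subset (by omega) (by omega) (by omega) (by omega)
    obtain ⟨I0, hI0⟩ : ∃ I0, I0 = (range (16 * t - 1)).filter
      (fun i : ℕ => |(i:ℤ) * a - u.1| ≤ 5 * (a:ℤ)) := ⟨_, rfl⟩
    obtain ⟨J1, hJ1⟩ : ∃ J1, J1 = (range (16 * t + 1)).filter
      (fun i : ℕ => |(i:ℤ) * a - u.1| ≤ 5 * (a:ℤ)) := ⟨_, rfl⟩
    have hc1 : I0.card ≤ 11 := by rw [hI0]; exact near_card ha _ _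
    have hc2 : (insert (16 * t + 1) J1).card ≤ 12 := by
      refine (card_insert_le _ _).trans ?_
      have : J1.card ≤ 11 := by rw [hJ1]; exact near_card ha _ _
      omega
    have hJsub : ∀ j ∈ insert (16 * t + 1) J1, j < 16 * t + 2 := by
      intro j hj
      rw [mem_insert] at hj
      rcases hj with rfl | hj
      · omega
      · rw [hJ1, mem_filter, mem_range] at hj
        omega
    have key := hNF (RE 0 n 0 n) T1 T2 K (fun i => OA a i) (fun j => DD n a t j) sO sD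
      (range (16 * t - 1)) (range (16 * t + 3)) I0 (insert (16 * t + 1) J1) (TH992.T.q0 ^ 2)
      (fun F => Two u f r (↑F)) k1 k2 k3 hKS (by rw [hI0]; exact filter_subset _ _)
      (by
        intro j hj
        have := hJsub j hj
        rw [mem_range]; omega) hq
      (fun i hi => (k4 i hi).1) (fun j hj => (k5 j hj).1)
      (fun i hi => (k4 i hi).2.1) (fun j hj => (k5 j hj).2.1)
      (fun i hi => (k4 i hi).2.2) (fun j hj => (k5 j hj).2.2)
      (by
        intro i hi hi0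
        rw [hK]
        refine (k6 u r h1 h2 h3 h4 hra).1 i hi ?_
        by_contra hcon
        push Not at hcon
        exact hi0 (by rw [hI0, mem_filter]; exact ⟨hi, hcon⟩))
      (by
        intro j hj hj0
        rw [hK]
        rw [mem_insert] at hj0
        push Not at hj0
        refine (k6 u r h1 h2 h3 h4 hra).2 j hj ?_ hj0.1
        intro hlt
        by_contra hcon
        push Not at hcon
        exact hj0.2 (by rw [hJ1, mem_filter, mem_range]; exact ⟨hlt, hcon⟩))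
      (by
        intro i hi
        rw [hI0, mem_filter] at hi
        exact v1 i hi.1)
      (by
        intro j hj
        have hj2 := hJsub j hj
        rcases Nat.lt_or_ge j (16 * t + 1) with h | h
        · refine (v2 j h).trans (Pr_mono hok fun F _ hF => ?_)
          exact ⟨fun _ => hF, fun h' => by omega, fun h' => by omega⟩
        · have hj3 : j = 16 * t + 1 := by omega
          refine v3.trans (Pr_mono hok fun F _ hF => ?_)
          exact ⟨fun h' => by omega, fun _ => hF, fun h' => by omega⟩)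
      (by
        intro F _
        exact two_inter hr0 F (by rw [hK]))
    have e1 : PP (RE 0 n 0 n) (fun F => Two u f r (↑F)) ≤ ph Cu (1/4) r := by
      unfold ph
      rw [if_neg (by omega)]
      show Pr (fun _ => (1/2:ℝ)) (RE 0 n 0 n) (fun F => Two u f r (↑F)) ≤ _
      rw [pr_two hr0 (by rw [← hK]; exact hKS)]
      exact hU r u f hr0 hf
    have e2 : (TH992.T.q0 ^ 2) ^ 23 ≤
        (TH992.T.q0 ^ 2) ^ (I0.card + (insert (16 * t + 1) J1).card) :=
      pow_le_pow_of_le_one hq.le hq1 (by omega)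
    calc (TH992.T.q0 ^ 2) ^ 23 * PP (RE 0 n 0 n) (fun F => Two u f r (↑F) ∧ EE n a t F)
        ≤ (TH992.T.q0 ^ 2) ^ (I0.card + (insert (16 * t + 1) J1).card) *
          PP (RE 0 n 0 n) (fun F => Two u f r (↑F) ∧ EE n a t F) :=
          mul_le_mul_of_nonneg_right e2 (Pr_nonneg hok _ _)
      _ ≤ PP (RE 0 n 0 n) (fun F => Two u f r (↑F)) * PP (RE 0 n 0 n) (EE n a t) := key
      _ ≤ _ := mul_le_mul_of_nonneg_right e1 hP0

/-- The expected number of two-arm pairs in the tube on the tube event. -/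
theorem ex_tube (hNF : St_NF) (hEVL : St_EVL) (hEVP : St_EVP) {Cu : ℝ} (hCu : 0 < Cu)
    (hU : TwoUp Cu (1/4)) {n a t : ℕ} (hA : Adm n a t) :
    (TH992.T.q0 ^ 2) ^ 23 * Ex (fun _ => (1/2:ℝ)) (RE 0 n 0 n)
      (fun F => NT (16 * ((t:ℤ) * a) + 2 * a) (2 * (a:ℤ)) a (↑F) * ind (EE n a t F)) ≤
    (∑ e ∈ RE 0 (16 * ((t:ℤ) * a) + 2 * a) 0 (2 * (a:ℤ)), 2 * ph Cu (1/4) (rr a (src e))) *
      PP (RE 0 n 0 n) (EE n a t) := by
  have e1 : Ex (fun _ => (1/2:ℝ)) (RE 0 n 0 n)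
      (fun F => NT (16 * ((t:ℤ) * a) + 2 * a) (2 * (a:ℤ)) a (↑F) * ind (EE n a t F)) =
      ∑ e ∈ RE 0 (16 * ((t:ℤ) * a) + 2 * a) 0 (2 * (a:ℤ)),
        (PP (RE 0 n 0 n) (fun F => Two (src e) (dsrc e) (rr a (src e)) (↑F) ∧ EE n a t F) +
          PP (RE 0 n 0 n) (fun F => Two (src e) (dtgt e) (rr a (src e)) (↑F) ∧ EE n a t F)) := by
    unfold NT
    rw [Ex_congr (g := fun F => ∑ e ∈ RE 0 (16 * ((t:ℤ) * a) + 2 * a) 0 (2 * (a:ℤ)),
      (ind (Two (src e) (dsrc e) (rr a (src e)) (↑F) ∧ EE n a t F) +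
        ind (Two (src e) (dtgt e) (rr a (src e)) (↑F) ∧ EE n a t F))) (fun F _ => ?_)]
    · rw [Ex_sum]
      refine sum_congr rfl fun e _ => ?_
      rw [Ex_add]
      rfl
    · rw [sum_mul]
      refine sum_congr rfl fun e _ => ?_
      rw [ind_and, ind_and, add_mul]
  rw [e1, mul_sum, sum_mul]
  refine sum_le_sum fun e he => ?_
  obtain ⟨hs, -⟩ := ends_of_RE he
  unfold inR at hs
  have h1 := two_tube hNF hEVL hEVP hCu hU hA (inc_dsrc e) (by omega) (by exact_mod_cast hs.1.2)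
    (by omega) (by exact_mod_cast hs.2.2)
  have h2 := two_tube hNF hEVL hEVP hCu hU hA (inc_dtgt e) (by omega) (by exact_mod_cast hs.1.2)
    (by omega) (by exact_mod_cast hs.2.2)
  rw [mul_add]
  linarith

/-- The probability of the tube event. -/
theorem tube_pr (hNL : St_NL) (hEVL : St_EVL) {C : ℝ} {n a t : ℕ} (hA : Adm n a t)
    (v1 : ∀ i ∈ range (16 * t - 1), TH992.T.q0 ^ 2 ≤ PP (RE 0 n 0 n) (OA a i))
    (v2 : ∀ j < 16 * t + 1, TH992.T.q0 ^ 2 ≤ PP (RE 0 n 0 n) (UA n a j))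
    (v3 : TH992.T.q0 ^ 2 ≤ PP (RE 0 n 0 n) (NA n a (t * a)))
    (v4 : Real.exp (-(C * ((n:ℝ) / (t * a)) ^ 2)) ≤ PP (RE 0 n 0 n) (ZA n (t * a))) :
    (TH992.T.q0 ^ 2) ^ (32 * t + 1) * Real.exp (-(C * ((n:ℝ) / (t * a)) ^ 2)) ≤
      PP (RE 0 n 0 n) (EE n a t) := by
  classical
  have q0 := TH992.T.q0_pos
  have hq : 0 < TH992.T.q0 ^ 2 := by positivity
  obtain ⟨T1, T2, sO, sD, k1, k2, k3, k4, k5, -⟩ := hEVL n a t hA
  have ht := hA.ht
  have key := hNL (RE 0 n 0 n) T1 T2 (fun i => OA a i) (fun j => DD n a t j) sO sD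
    (range (16 * t - 1)) (range (16 * t + 3)) (fun _ => TH992.T.q0 ^ 2)
    (fun j => if j < 16 * t + 2 then TH992.T.q0 ^ 2 else
      Real.exp (-(C * ((n:ℝ) / (t * a)) ^ 2))) k1 k2 k3
    (fun i hi => (k4 i hi).1) (fun j hj => (k5 j hj).1)
    (fun i hi => (k4 i hi).2.1) (fun j hj => (k5 j hj).2.1)
    (fun i hi => (k4 i hi).2.2) (fun j hj => (k5 j hj).2.2)
    (fun i hi => ⟨hq.le, v1 i hi⟩)
    (by
      intro j hj
      rw [mem_range] at hj
      split_ifs with h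
      · refine ⟨hq.le, ?_⟩
        rcases Nat.lt_or_ge j (16 * t + 1) with h' | h'
        · refine (v2 j h').trans (Pr_mono hok fun F _ hF => ?_)
          exact ⟨fun _ => hF, fun h' => by omega, fun h' => by omega⟩
        · refine v3.trans (Pr_mono hok fun F _ hF => ?_)
          exact ⟨fun h' => by omega, fun _ => hF, fun h' => by omega⟩
      · refine ⟨(Real.exp_pos _).le, v4.trans (Pr_mono hok fun F _ hF => ?_)⟩
        exact ⟨fun h' => by omega, fun h' => by omega, fun _ => hF⟩)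
  refine le_trans (le_of_eq ?_) key
  rw [prod_const, card_range, show 16 * t + 3 = (16 * t + 2) + 1 by ring, prod_range_succ,
    if_neg (lt_irrefl _)]
  have e1 : ∏ x ∈ range (16 * t + 2), (if x < 16 * t + 2 then TH992.T.q0 ^ 2 else
      Real.exp (-(C * ((n:ℝ) / (t * a)) ^ 2))) = (TH992.T.q0 ^ 2) ^ (16 * t + 2) := by
    rw [prod_congr rfl (g := fun _ => TH992.T.q0 ^ 2) (fun x hx => by
      rw [if_pos (mem_range.mp hx)])]
    rw [prod_const, card_range]
  rw [e1, ← mul_assoc, ← pow_add]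
  congr 2
  omega

theorem asm (hNF : St_NF) (hNL : St_NL) (hEVL : St_EVL) (hEVP : St_EVP) (hSEP : St_SEP)
    (hPS : St_PS) (hSUM : St_SUM) {Cu : ℝ} (hCu : 0 < Cu) (hU : TwoUp Cu (1/4)) : St_ASM := by
  classical
  have q0 := TH992.T.q0_pos
  have q1 := TH992.T.q0_le
  obtain ⟨q, hqd⟩ : ∃ q, q = TH992.T.q0 ^ 2 := ⟨_, rfl⟩
  have hq : 0 < q := by rw [hqd]; positivity
  have hq1 : q ≤ 1 := by rw [hqd]; exact pow_le_one₀ q0.le q1
  obtain ⟨C', hC', hsum⟩ := hSUM Cu hCu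
  have hEVP' := hEVP
  obtain ⟨C, hC, hev⟩ := hEVP'
  obtain ⟨κ, hκ⟩ : ∃ κ, κ = -Real.log q := ⟨_, rfl⟩
  have hκ0 : 0 ≤ κ := by
    rw [hκ]
    have := Real.log_nonpos hq.le hq1
    linarith
  have hqe : q = Real.exp (-κ) := by rw [hκ, neg_neg, Real.exp_log hq]
  refine ⟨2 * C' / q ^ 23, max C (33 * κ + 1), by positivity, by positivity, fun n a t hA => ?_⟩
  obtain ⟨v1, v2, v3, v4⟩ := hev n a t hA
  have ha := hA.ha
  have ht := hA.ht
  have htR : (5:ℝ) ≤ t := by exact_mod_cast ht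
  have haR : (1:ℝ) ≤ a := by exact_mod_cast ha
  have hnz : 16 * ((t:ℤ) * a) + 3 * a + 1 ≤ n := by exact_mod_cast hA.hn
  obtain ⟨PE, hPE⟩ : ∃ x, x = PP (RE 0 n 0 n) (EE n a t) := ⟨_, rfl⟩
  have hlow := tube_pr hNL hEVL hA v1 v2 v3 v4
  have hex := ex_tube hNF hEVL hEVP hCu hU hA
  rw [← hPE, ← hqd] at hlow hex
  obtain ⟨X, hX⟩ : ∃ X : Finset Edg → ℝ, X = fun F : Finset Edg =>
    NT (16 * ((t:ℤ) * a) + 2 * a) (2 * (a:ℤ)) a (↑F : Set Edg) := ⟨_, rfl⟩
  have hX0 : ∀ F, 0 ≤ X F := by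
    intro F
    rw [hX]
    exact sum_nonneg fun e _ => add_nonneg (ind_nonneg _) (ind_nonneg _)
  obtain ⟨lam, hlam⟩ : ∃ lam, lam = 2 * C' / q ^ 23 * (t * (a:ℝ) ^ (7/4 : ℝ)) := ⟨_, rfl⟩
  have hlam0 : 0 < lam := by rw [hlam]; positivity
  rw [← hlam]
  have hPE0 : 0 ≤ PE := by rw [hPE]; exact Pr_nonneg hok _ _
  have hq23 : 0 < q ^ 23 := by positivity
  -- Markov
  have hmk : PP (RE 0 n 0 n) (fun F => EE n a t F ∧ lam < X F) ≤ PE / 2 := by
    have m1 : lam * PP (RE 0 n 0 n) (fun F => EE n a t F ∧ lam < X F) ≤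
        Ex (fun _ => (1/2:ℝ)) (RE 0 n 0 n) (fun F => X F * ind (EE n a t F)) := by
      have : lam * PP (RE 0 n 0 n) (fun F => EE n a t F ∧ lam < X F) =
          Ex (fun _ => (1/2:ℝ)) (RE 0 n 0 n)
            (fun F => ind (EE n a t F ∧ lam < X F) * lam) := by
        rw [Ex_mul_right, mul_comm]
        rfl
      rw [this]
      apply Ex_mono hok
      intro F _
      by_cases h : EE n a t F ∧ lam < X F
      · rw [ind_of h, ind_of h.1, one_mul, mul_one]
        exact h.2.le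
      · rw [ind_not_of h, zero_mul]
        exact mul_nonneg (hX0 F) (ind_nonneg _)
    have m2 : q ^ 23 * (lam * PP (RE 0 n 0 n) (fun F => EE n a t F ∧ lam < X F)) ≤
        C' * (t * (a:ℝ) ^ (7/4 : ℝ)) * PE := by
      refine (mul_le_mul_of_nonneg_left m1 hq23.le).trans ?_
      rw [hX]
      exact hex.trans (mul_le_mul_of_nonneg_right (hsum a t ha (by omega)) hPE0)
    have m3 : q ^ 23 * lam = 2 * (C' * (t * (a:ℝ) ^ (7/4 : ℝ))) := by
      rw [hlam]
      field_simp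
    have m4 : 0 < C' * (t * (a:ℝ) ^ (7/4 : ℝ)) := by positivity
    rw [← mul_assoc, m3] at m2
    nlinarith
  -- the good event
  have hgood : PE / 2 ≤ PP (RE 0 n 0 n) (fun F => EE n a t F ∧ X F ≤ lam) := by
    have g1 : PE ≤ PP (RE 0 n 0 n) (fun F => (EE n a t F ∧ X F ≤ lam) ∨
        (EE n a t F ∧ lam < X F)) := by
      rw [hPE]
      refine Pr_mono hok fun F _ hF => ?_
      rcases le_or_gt (X F) lam with h | h
      · exact Or.inl ⟨hF, h⟩
      · exact Or.inr ⟨hF, h⟩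
    have g2 := Pr_or_le hok (RE 0 n 0 n) (fun F => EE n a t F ∧ X F ≤ lam)
      (fun F => EE n a t F ∧ lam < X F)
    have g3 : PE ≤ PP (RE 0 n 0 n) (fun F => EE n a t F ∧ X F ≤ lam) +
      PP (RE 0 n 0 n) (fun F => EE n a t F ∧ lam < X F) := g1.trans g2
    linarith
  have hincl : PP (RE 0 n 0 n) (fun F => EE n a t F ∧ X F ≤ lam) ≤
      PP (RE 0 n 0 n) (fun F => ∀ v, IsMax n (↑F) v → (per n (↑F) v : ℝ) ≤ lam) := by
    refine Pr_mono hok fun F hF hE v hv => ?_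
    obtain ⟨s1, c, d, s2, s3, s4⟩ := hSEP n a t F v hA hF hE.1 hv
    have hta : (0:ℤ) ≤ (t:ℤ) * a := by positivity
    have haz : (1:ℤ) ≤ a := by exact_mod_cast ha
    have hps := hPS n (16 * ((t:ℤ) * a) + 2 * a) (2 * (a:ℤ)) a F v hF (by omega) (by omega)
      (by
        have : (5:ℤ) * a ≤ (t:ℤ) * a := mul_le_mul_of_nonneg_right (by exact_mod_cast ht) (by omega)
        omega) s1 ⟨c, d, s2, s3, by
        refine le_trans ?_ s4
        have h5 : (a:ℤ) ≤ (t:ℤ) * a := by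
          have : (1:ℤ) * a ≤ (t:ℤ) * a :=
            mul_le_mul_of_nonneg_right (by exact_mod_cast (by omega : 1 ≤ t)) (by omega)
          omega
        have h6 : (a:ℤ) ^ 2 ≤ ((t:ℤ) * a) ^ 2 := pow_le_pow_left₀ (by omega) h5 2
        nlinarith⟩
    refine hps.trans ?_
    have := hE.2
    rw [hX] at this
    exact this
  refine le_trans ?_ hincl
  refine le_trans ?_ hgood
  have hfin : Real.exp (-(max C (33 * κ + 1) * (t + ((n:ℝ) / (t * a)) ^ 2))) ≤
      q ^ (32 * t + 1) * Real.exp (-(C * ((n:ℝ) / (t * a)) ^ 2)) / 2 := by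
    have f1 : q ^ (32 * t + 1) = Real.exp (-(κ * (32 * t + 1))) := by
      rw [hqe, ← Real.exp_nat_mul]
      congr 1
      push_cast
      ring
    have f2 : (1:ℝ) / 2 ≥ Real.exp (-(t:ℝ)) := by
      have f3 : (2:ℝ) ≤ Real.exp t := by
        have := Real.add_one_le_exp (t:ℝ)
        linarith
      rw [Real.exp_neg, ge_iff_le, inv_eq_one_div]
      exact one_div_le_one_div_of_le (by norm_num) f3
    rw [f1, ← Real.exp_add]
    have f4 : Real.exp (-(κ * (32 * t + 1)) + -(C * ((n:ℝ) / (t * a)) ^ 2)) / 2 ≥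
        Real.exp (-(κ * (32 * t + 1)) + -(C * ((n:ℝ) / (t * a)) ^ 2)) * Real.exp (-(t:ℝ)) := by
      rw [div_eq_mul_one_div]
      exact mul_le_mul_of_nonneg_left f2 (Real.exp_pos _).le
    refine le_trans ?_ f4
    rw [← Real.exp_add, Real.exp_le_exp]
    have g1 : C ≤ max C (33 * κ + 1) := le_max_left _ _
    have g2 : 33 * κ + 1 ≤ max C (33 * κ + 1) := le_max_right _ _
    have g3 : 0 ≤ ((n:ℝ) / (t * a)) ^ 2 := by positivity
    have g4 := mul_le_mul_of_nonneg_right g1 g3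
    have g5 : (33 * κ + 1) * t ≤ max C (33 * κ + 1) * t :=
      mul_le_mul_of_nonneg_right g2 (by linarith)
    have g6 : κ * 1 ≤ κ * t := mul_le_mul_of_nonneg_left (by linarith) hκ0
    nlinarith
  refine hfin.trans ?_
  linarith

end W78LT
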