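import Pool.Agent.W2helper78.LT.Asm1

/-!
Project LT: assembly of the two bounds.
-/

set_option autoImplicit false

namespace W78LT

open H974 Finset H342P H984P H984H TH992.L

theorem pr_empty (S : Finset Edg) : (1/2 : ℝ) ^ S.card ≤ PP S (fun F => F = ∅) := by
  classical
  induction S using Finset.induction_on with
  | empty =>
    rw [card_empty, pow_zero]
    refine le_of_eq ?_
    symm
    exact Pr_true _ (fun F hF => subset_empty.mp hF)
  | insert a S ha ih =>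
    rw [card_insert_of_notMem ha, pow_succ]
    have h1 : PP (insert a S) (fun F => F = ∅) =
        (1/2) * Ex (fun _ => (1/2:ℝ)) S (fun F => ind (insert a F = ∅)) +
        (1 - 1/2) * PP S (fun F => F = ∅) := by
      show Ex _ _ _ = _
      rw [Ex_insert _ ha]
      rfl
    rw [h1]
    have h2 : 0 ≤ Ex (fun _ => (1/2:ℝ)) S (fun F => ind (insert a F = ∅)) :=
      Ex_nonneg hok fun _ _ => ind_nonneg _
    linarith

theorem per_empty (n : ℕ) (v : Vtx) : per n (↑(∅ : Finset Edg) : Set Edg) v = 0 := by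
  unfold per
  apply Finset.sum_eq_zero
  intro e _
  rw [if_neg]
  intro h
  have := h.1
  simp at this

theorem lwr (hA : St_ASM) (hO : St_OPTL) : St_Lwr := by
  obtain ⟨C1, C2, h1, h2, hasm⟩ := hA
  obtain ⟨C, hC, hopt⟩ := hO C1 C2 h1 h2
  refine ⟨C, hC, fun n m hn hm hmn => ?_⟩
  rcases hopt n m hn hm hmn with ⟨a, t, k1, k2, k3⟩ | k
  · refine le_trans (Real.exp_le_exp.mpr (by linarith)) ((hasm n a t k1).trans ?_)
    refine Pr_mono hok fun F _ hF v hv => ?_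
    have := (hF v hv).trans k2
    exact_mod_cast this
  · have e1 : Real.exp (-(C * Psi n m)) ≤ (1/2 : ℝ) ^ (RE 0 (n:ℤ) 0 n).card := by
      have e2 : (1/2 : ℝ) ^ (2 * (n + 1) ^ 2) ≤ (1/2 : ℝ) ^ (RE 0 (n:ℤ) 0 n).card :=
        pow_le_pow_of_le_one (by norm_num) (by norm_num) (card_RE_le n)
      refine le_trans ?_ e2
      have e3 : Real.exp (-1) ≤ (1/2 : ℝ) := by
        have h3 : (2:ℝ) ≤ Real.exp 1 := by
          have := Real.add_one_le_exp (1:ℝ)
          linarith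
        rw [Real.exp_neg, inv_eq_one_div]
        exact one_div_le_one_div_of_le (by norm_num) h3
      refine le_trans ?_ (pow_le_pow_left₀ (Real.exp_pos _).le e3 _)
      rw [← Real.exp_nat_mul, Real.exp_le_exp]
      push_cast
      linarith
    refine e1.trans ((pr_empty _).trans ?_)
    refine Pr_mono hok fun F _ hF v _ => ?_
    rw [hF, per_empty]
    exact Nat.zero_le _

theorem sd_nxt (F : Set Edg) (σ : St) : sd σ.1 (nxt F σ).1 ≤ 1 := by
  by_cases h : ae σ ∈ F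
  · rw [nxt_open h, det_sd_comm]; exact det_mv σ
  · rw [nxt_closed h]
    obtain ⟨⟨x, y⟩, q⟩ := σ
    cases q <;> simp [det_sd_self]

theorem sd_orb (F : Set Edg) (σ : St) (s : ℕ) : sd σ.1 (orb F σ s).1 ≤ s := by
  induction s with
  | zero => rw [orb_zero, det_sd_self]; simp
  | succ s ih =>
    rw [orb_succ]
    have h1 := det_sd_tri σ.1 (orb F σ s).1 (nxt F (orb F σ s)).1
    have h2 := sd_nxt F (orb F σ s)
    push_cast
    omega

theorem upp (hNB : St_NB2) (hWP : St_WP) (hCU : St_CU) (hORB : St_ORB) (hDET : St_DET)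
    (hO : St_OPTU) {c0 C0 : ℝ} (h1 : 0 < c0) (h2 : 0 < C0) (hL : LowA c0 (1/4))
    (hU : TwoUp C0 (1/4)) : St_Upp := by
  classical
  obtain ⟨Γ, c', hΓ, hc', hwp⟩ := hWP c0 C0 h1 h2 hL hU ((1/36) ^ 98) (by positivity)
  obtain ⟨c, C, hc, hC, hopt⟩ := hO Γ c' hΓ hc'
  refine ⟨c, C, hc, hC, fun n m hn hm hmn => ?_⟩
  rcases hopt n m hn hm hmn with h | ⟨D, L, K, k1, k2, k3, k4, k5⟩ |
    ⟨a, k, D, L, K, k1, k2, k3, k4, k5, k6, k7, k8, k9, k10⟩
  · exact (Pr_le_one hok _ _).trans h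
  · refine le_trans ?_ k5
    refine le_trans ?_ (hNB n L K D k1 (by positivity) (by exact_mod_cast k3) k4)
    refine Pr_mono hok fun F hF => ?_
    rintro ⟨v, hv, hp⟩ hbig
    obtain ⟨σ, p, T, ho⟩ := hORB n D F v hF (by omega) hbig hv
    have e1 := ho.far
    have e2 := sd_orb (↑F) σ T
    have e3 := ho.lt
    have e4 := ho.le
    omega
  · refine le_trans ?_ k10
    obtain ⟨R, R1, m', hpar, hpr⟩ := hwp a k1
    have e1 := hNB n L K D k7 (by positivity) (by exact_mod_cast k8) k9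
    have hW1 : (1:ℤ) ≤ (Γ:ℤ) * a := by
      have := hpar.hW
      have := hpar.hR
      have := hpar.hm
      omega
    have hWn : 3 * ((Γ:ℤ) * a) ≤ n := by exact_mod_cast k3
    have e2 := hCU n ((Γ:ℤ) * a) R R1 m' ⌈c' * (a:ℝ) ^ (7/4 : ℝ)⌉₊ k hW1 hWn
      (fun q S hS => hpr n q S hWn hS)
    have e3 : (n:ℝ) / (((Γ:ℤ) * a : ℤ) : ℝ) = (n:ℝ) / (Γ * a) := by push_cast; rfl
    rw [e3] at e2
    refine le_trans ?_ (add_le_add e1 e2)
    refine le_trans ?_ (Pr_or_le hok _ _ _)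
    refine Pr_mono hok fun F hF => ?_
    rintro ⟨v, hv, hp⟩
    by_contra hcon
    rw [not_or, not_not] at hcon
    obtain ⟨hbig, hchn⟩ := hcon
    obtain ⟨σ, p, T, ho⟩ := hORB n D F v hF (by omega) hbig hv
    have e4 := hDET n ((Γ:ℤ) * a) R R1 m' D ⌈c' * (a:ℝ) ^ (7/4 : ℝ)⌉₊ k F v σ p T hpar hWn hF k2
      (by exact_mod_cast k5) ho hchn
    have e5 := ho.le
    have e6 : (k + 1) * ⌈c' * (a:ℝ) ^ (7/4 : ℝ)⌉₊ ≤ 784 * m := by
      have : 98 * p ≤ 98 * (8 * m) := Nat.mul_le_mul_left _ (e5.trans (Nat.mul_le_mul_left _ hp))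
      omega
    have e7 : ((k:ℝ) + 1) * (⌈c' * (a:ℝ) ^ (7/4 : ℝ)⌉₊ : ℝ) ≤ 784 * m := by exact_mod_cast e6
    have e8 : ((k:ℝ) + 1) * (c' * (a:ℝ) ^ (7/4 : ℝ)) ≤
        ((k:ℝ) + 1) * (⌈c' * (a:ℝ) ^ (7/4 : ℝ)⌉₊ : ℝ) :=
      mul_le_mul_of_nonneg_left (Nat.le_ceil _) (by positivity)
    linarith

end W78LT
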