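import Pool.Agent.W2helper78.LT.Asm2
import Pool.Agent.TH494.PT.Fin2

/-!
Project LT: the lower tail in the plain model and in the limit.
-/

set_option autoImplicit false

namespace W78LT

open H974 Finset H342P H984P H984H TH992.L MeasureTheory Filter Topology

theorem Psi_nonneg (n m : ℕ) : 0 ≤ Psi n m :=
  le_max_of_le_right (sq_nonneg _)

/-- doubling `m` changes the rate by a factor of at most 4 -/
theorem Psi_double {n m : ℕ} (hm : 1 ≤ m) : Psi n m ≤ 4 * Psi n (2 * m) := by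
  have hmR : (0:ℝ) < m := by exact_mod_cast hm
  have hn : (0:ℝ) ≤ (n:ℝ) ^ (7/4 : ℝ) := Real.rpow_nonneg (Nat.cast_nonneg _) _
  unfold Psi
  rw [mul_max_of_nonneg _ _ (by norm_num : (0:ℝ) ≤ 4)]
  refine max_le_max ?_ ?_
  · have e1 : (n:ℝ) ^ (7/4 : ℝ) / m = 2 * ((n:ℝ) ^ (7/4 : ℝ) / ((2 * m : ℕ) : ℝ)) := by
      push_cast
      field_simp
    rw [e1, Real.mul_rpow (by norm_num) (by positivity)]
    have e2 : (2:ℝ) ^ (8/13 : ℝ) ≤ 4 := by
      calc (2:ℝ) ^ (8/13 : ℝ) ≤ (2:ℝ) ^ (2 : ℝ) :=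
            Real.rpow_le_rpow_of_exponent_le (by norm_num) (by norm_num)
        _ = 4 := by norm_num
    exact mul_le_mul_of_nonneg_right e2 (by positivity)
  · refine le_of_eq ?_
    push_cast
    field_simp
    norm_num

/-- the bounds in the plain model -/
theorem plain (hU : St_Upp) (hL : St_Lwr) : ∃ c C : ℝ, 0 < c ∧ 0 < C ∧
    ∀ n m : ℕ, 1 ≤ n → 1 ≤ m → (m:ℝ) ≤ (n:ℝ) ^ (7/4 : ℝ) →
      Real.exp (-(C * Psi n m)) ≤
        Plain.prob n (fun F => ∀ v, Plain.Largest n F v → Plain.perimeter F v ≤ m) ∧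
      Plain.prob n (fun F => ∃ v, Plain.Largest n F v ∧ Plain.perimeterEdges F v ≤ m) ≤
        C * Real.exp (-(c * Psi n m)) := by
  obtain ⟨c, C, hc, hC, hup⟩ := hU
  obtain ⟨C2, hC2, hlow⟩ := hL
  obtain ⟨C3, hC3⟩ : ∃ C3, C3 = max C (max C2 (Real.exp (4 * c))) := ⟨_, rfl⟩
  have h1 : C ≤ C3 := by rw [hC3]; exact le_max_left _ _
  have h2 : C2 ≤ C3 := by rw [hC3]; exact (le_max_left _ _).trans (le_max_right _ _)
  have h3 : Real.exp (4 * c) ≤ C3 := by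
    rw [hC3]; exact (le_max_right _ _).trans (le_max_right _ _)
  have hC30 : 0 < C3 := lt_of_lt_of_le hC h1
  refine ⟨c / 4, C3, by positivity, hC30, fun n m hn hm hmn => ⟨?_, ?_⟩⟩
  · refine le_trans (Real.exp_le_exp.mpr ?_) ((hlow n m hn hm hmn).trans ?_)
    · have := mul_le_mul_of_nonneg_right h2 (Psi_nonneg n m)
      linarith
    · rw [Plain.prob_eq]
      refine Pr_mono hok fun F hF hw v hv => ?_
      rw [Plain.perimeter_eq (by rw [Plain.edges_eq]; exact hF)]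
      exact hw v (Plain.isMax_of_largest hv)
  · by_cases h : ((2 * m : ℕ) : ℝ) ≤ (n:ℝ) ^ (7/4 : ℝ)
    · have e1 : Plain.prob n (fun F => ∃ v, Plain.Largest n F v ∧ Plain.perimeterEdges F v ≤ m) ≤
          PP (RE 0 n 0 n) (fun F => ∃ v, IsMax n (↑F) v ∧ per n (↑F) v ≤ 2 * m) := by
        refine Plain.prob_le_of_pr fun F hF => ?_
        rintro ⟨v, hv, hx⟩
        refine ⟨v, Plain.isMax_of_largest hv, ?_⟩
        rw [← Plain.perimeter_eq hF]
        exact (Plain.perimeter_le F v).trans (Nat.mul_le_mul_left _ hx)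
      refine e1.trans ((hup n (2 * m) hn (by omega) h).trans ?_)
      refine mul_le_mul h1 (Real.exp_le_exp.mpr ?_) (Real.exp_pos _).le hC30.le
      have := mul_le_mul_of_nonneg_left (Psi_double (n := n) hm) hc.le
      linarith
    · push Not at h
      have hmR : (0:ℝ) < m := by exact_mod_cast hm
      have hnR : (1:ℝ) ≤ n := by exact_mod_cast hn
      have e0 : (n:ℝ) ^ (7/4 : ℝ) / m ≤ 2 := by
        rw [div_le_iff₀ hmR]
        push_cast at h
        linarith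
      have e01 : (n:ℝ) / m ≤ 2 := by
        refine le_trans ?_ e0
        gcongr
        calc (n:ℝ) = (n:ℝ) ^ (1:ℝ) := (Real.rpow_one _).symm
          _ ≤ (n:ℝ) ^ (7/4 : ℝ) := Real.rpow_le_rpow_of_exponent_le hnR (by norm_num)
      have e1 : Psi n m ≤ 4 := by
        unfold Psi
        refine max_le ?_ ?_
        · calc ((n:ℝ) ^ (7/4 : ℝ) / m) ^ (8/13 : ℝ) ≤ (2:ℝ) ^ (8/13 : ℝ) :=
                Real.rpow_le_rpow (by positivity) e0 (by norm_num)
            _ ≤ (2:ℝ) ^ (2 : ℝ) :=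
                Real.rpow_le_rpow_of_exponent_le (by norm_num) (by norm_num)
            _ = 4 := by norm_num
        · calc ((n:ℝ) / m) ^ 2 ≤ 2 ^ 2 := pow_le_pow_left₀ (by positivity) e01 2
            _ = 4 := by norm_num
      have e2 : Plain.prob n (fun F => ∃ v, Plain.Largest n F v ∧ Plain.perimeterEdges F v ≤ m) ≤
          1 := by
        rw [Plain.prob_eq]
        exact Pr_le_one hok _ _
      refine e2.trans ?_
      have e3 : (1:ℝ) = Real.exp (4 * c) * Real.exp (-(4 * c)) := by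
        rw [← Real.exp_add]; simp
      rw [e3]
      refine mul_le_mul h3 (Real.exp_le_exp.mpr ?_) (Real.exp_pos _).le hC30.le
      have e4 : c / 4 * Psi n m ≤ c / 4 * 4 := mul_le_mul_of_nonneg_left e1 (by positivity)
      linarith

/-- the rate in terms of `x` -/
theorem Psi_le_x {n m : ℕ} (hn : 1 ≤ n) {x : ℝ} (hx : (n:ℝ) ^ (-(13/12) : ℝ) ≤ x)
    (hm : x * (n:ℝ) ^ (7/4 : ℝ) ≤ 2 * m) : Psi n m ≤ 4 * x ^ (-(8/13) : ℝ) := by
  have hnR : (1:ℝ) ≤ n := by exact_mod_cast hn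
  have hn0 : (0:ℝ) < n := by linarith
  have hx0 : 0 < x := lt_of_lt_of_le (Real.rpow_pos_of_pos hn0 _) hx
  have hN : 0 < (n:ℝ) ^ (7/4 : ℝ) := Real.rpow_pos_of_pos hn0 _
  have hmR : (0:ℝ) < m := by
    have : 0 < x * (n:ℝ) ^ (7/4 : ℝ) := by positivity
    linarith
  unfold Psi
  refine max_le ?_ ?_
  · have e1 : (n:ℝ) ^ (7/4 : ℝ) / m ≤ 2 * x⁻¹ := by
      rw [div_le_iff₀ hmR]
      have : x⁻¹ * (x * (n:ℝ) ^ (7/4 : ℝ)) ≤ x⁻¹ * (2 * m) :=
        mul_le_mul_of_nonneg_left hm (by positivity)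
      rw [← mul_assoc, inv_mul_cancel₀ hx0.ne', one_mul] at this
      linarith
    calc ((n:ℝ) ^ (7/4 : ℝ) / m) ^ (8/13 : ℝ) ≤ (2 * x⁻¹) ^ (8/13 : ℝ) :=
          Real.rpow_le_rpow (by positivity) e1 (by norm_num)
      _ = 2 ^ (8/13 : ℝ) * x ^ (-(8/13) : ℝ) := by
          rw [Real.mul_rpow (by norm_num) (by positivity), Real.inv_rpow hx0.le,
            Real.rpow_neg hx0.le]
      _ ≤ 4 * x ^ (-(8/13) : ℝ) := by
          refine mul_le_mul_of_nonneg_right ?_ (by positivity)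
          calc (2:ℝ) ^ (8/13 : ℝ) ≤ (2:ℝ) ^ (2 : ℝ) :=
                Real.rpow_le_rpow_of_exponent_le (by norm_num) (by norm_num)
            _ = 4 := by norm_num
  · have e1 : (n:ℝ) / m ≤ 2 * (x⁻¹ * (n:ℝ) ^ (-(3/4) : ℝ)) := by
      rw [div_le_iff₀ hmR]
      have h1 : (n:ℝ) ^ (-(3/4) : ℝ) * (n:ℝ) ^ (7/4 : ℝ) = n := by
        rw [← Real.rpow_add hn0]
        norm_num
      have h2 : x⁻¹ * (n:ℝ) ^ (-(3/4) : ℝ) * (x * (n:ℝ) ^ (7/4 : ℝ)) ≤
          x⁻¹ * (n:ℝ) ^ (-(3/4) : ℝ) * (2 * m) :=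
        mul_le_mul_of_nonneg_left hm (by positivity)
      have h3 : x⁻¹ * (n:ℝ) ^ (-(3/4) : ℝ) * (x * (n:ℝ) ^ (7/4 : ℝ)) = n := by
        calc x⁻¹ * (n:ℝ) ^ (-(3/4) : ℝ) * (x * (n:ℝ) ^ (7/4 : ℝ)) =
            (x⁻¹ * x) * ((n:ℝ) ^ (-(3/4) : ℝ) * (n:ℝ) ^ (7/4 : ℝ)) := by ring
          _ = n := by rw [inv_mul_cancel₀ hx0.ne', h1, one_mul]
      rw [h3] at h2
      linarith
    have e2 : ((n:ℝ) ^ (-(3/4) : ℝ)) ^ 2 ≤ x ^ (18/13 : ℝ) := by
      calc ((n:ℝ) ^ (-(3/4) : ℝ)) ^ 2 = (n:ℝ) ^ (-(3/2) : ℝ) := by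
            rw [← Real.rpow_natCast, ← Real.rpow_mul hn0.le]
            norm_num
        _ = ((n:ℝ) ^ (-(13/12) : ℝ)) ^ (18/13 : ℝ) := by
            rw [← Real.rpow_mul hn0.le]
            norm_num
        _ ≤ x ^ (18/13 : ℝ) := Real.rpow_le_rpow (by positivity) hx (by norm_num)
    calc ((n:ℝ) / m) ^ 2 ≤ (2 * (x⁻¹ * (n:ℝ) ^ (-(3/4) : ℝ))) ^ 2 :=
          pow_le_pow_left₀ (by positivity) e1 2
      _ = 4 * ((x⁻¹) ^ 2 * ((n:ℝ) ^ (-(3/4) : ℝ)) ^ 2) := by ring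
      _ ≤ 4 * ((x⁻¹) ^ 2 * x ^ (18/13 : ℝ)) := by gcongr
      _ = 4 * x ^ (-(8/13) : ℝ) := by
          congr 1
          have : (x⁻¹) ^ 2 = x ^ (-2 : ℝ) := by
            rw [Real.rpow_neg hx0.le, inv_pow]
            congr 1
            norm_num
          rw [this, ← Real.rpow_add hx0]
          norm_num

theorem Psi_ge_x {n m : ℕ} (hm1 : 1 ≤ m) {x : ℝ} (hx0 : 0 < x)
    (hm : (m:ℝ) ≤ x * (n:ℝ) ^ (7/4 : ℝ)) : x ^ (-(8/13) : ℝ) ≤ Psi n m := by
  have hmR : (0:ℝ) < m := by exact_mod_cast hm1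
  unfold Psi
  refine le_max_of_le_left ?_
  rw [Real.rpow_neg hx0.le, ← Real.inv_rpow hx0.le]
  refine Real.rpow_le_rpow (by positivity) ?_ (by norm_num)
  rw [le_div_iff₀ hmR]
  calc x⁻¹ * m ≤ x⁻¹ * (x * (n:ℝ) ^ (7/4 : ℝ)) := mul_le_mul_of_nonneg_left hm (by positivity)
    _ = (n:ℝ) ^ (7/4 : ℝ) := by rw [← mul_assoc, inv_mul_cancel₀ hx0.ne', one_mul]

/-- the lower tail, normalised -/
theorem norm {c C : ℝ} (hc : 0 < c) (hC : 0 < C)
    (h : ∀ n m : ℕ, 1 ≤ n → 1 ≤ m → (m:ℝ) ≤ (n:ℝ) ^ (7/4 : ℝ) →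
      Real.exp (-(C * Psi n m)) ≤
        Plain.prob n (fun F => ∀ v, Plain.Largest n F v → Plain.perimeter F v ≤ m) ∧
      Plain.prob n (fun F => ∃ v, Plain.Largest n F v ∧ Plain.perimeterEdges F v ≤ m) ≤
        C * Real.exp (-(c * Psi n m))) {n : ℕ} (hn : 1 ≤ n) {x : ℝ}
    (hx : (n:ℝ) ^ (-(13/12) : ℝ) ≤ x) (hx1 : x ≤ 1) :
    Real.exp (-(4 * C * x ^ (-(8/13) : ℝ))) ≤ Plain.prob n (fun F => ∀ v, Plain.Largest n F v →
      (Plain.perimeter F v : ℝ) ≤ x * (n:ℝ) ^ (7/4 : ℝ)) ∧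
    Plain.prob n (fun F => ∃ v, Plain.Largest n F v ∧
      (Plain.perimeterEdges F v : ℝ) ≤ x * (n:ℝ) ^ (7/4 : ℝ)) ≤
      C * Real.exp (-(c * x ^ (-(8/13) : ℝ))) := by
  have hnR : (1:ℝ) ≤ n := by exact_mod_cast hn
  have hn0 : (0:ℝ) < n := by linarith
  have hx0 : 0 < x := lt_of_lt_of_le (Real.rpow_pos_of_pos hn0 _) hx
  have hN : 0 < (n:ℝ) ^ (7/4 : ℝ) := Real.rpow_pos_of_pos hn0 _
  obtain ⟨y, hy⟩ : ∃ y, y = x * (n:ℝ) ^ (7/4 : ℝ) := ⟨_, rfl⟩
  have hy1 : 1 ≤ y := by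
    have h1 : (n:ℝ) ^ (-(13/12) : ℝ) * (n:ℝ) ^ (7/4 : ℝ) = (n:ℝ) ^ (2/3 : ℝ) := by
      rw [← Real.rpow_add hn0]
      norm_num
    have h2 : (1:ℝ) ≤ (n:ℝ) ^ (2/3 : ℝ) := Real.one_le_rpow hnR (by norm_num)
    have h3 := mul_le_mul_of_nonneg_right hx hN.le
    rw [h1] at h3
    rw [hy]
    linarith
  obtain ⟨m, hm⟩ : ∃ m, m = ⌊y⌋₊ := ⟨_, rfl⟩
  have hm1 : 1 ≤ m := by
    rw [hm]
    exact (Nat.one_le_floor_iff y).mpr hy1
  have hmy : (m:ℝ) ≤ y := by rw [hm]; exact Nat.floor_le (by linarith)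
  have hym : y ≤ 2 * m := by
    have h1 : y < m + 1 := by rw [hm]; exact Nat.lt_floor_add_one y
    have h2 : (1:ℝ) ≤ m := by exact_mod_cast hm1
    linarith
  have hmn : (m:ℝ) ≤ (n:ℝ) ^ (7/4 : ℝ) := by
    refine hmy.trans ?_
    rw [hy]
    calc x * (n:ℝ) ^ (7/4 : ℝ) ≤ 1 * (n:ℝ) ^ (7/4 : ℝ) :=
          mul_le_mul_of_nonneg_right hx1 hN.le
      _ = _ := one_mul _
  obtain ⟨g1, g2⟩ := h n m hn hm1 hmn
  rw [← hy]
  constructor
  · refine le_trans (Real.exp_le_exp.mpr ?_) (g1.trans ?_)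
    · have := mul_le_mul_of_nonneg_left (Psi_le_x (m := m) hn hx (by rw [← hy]; exact hym)) hC.le
      linarith
    · refine TH494.PT.prob_mono fun F _ hF v hv => ?_
      have : (Plain.perimeter F v : ℝ) ≤ m := by exact_mod_cast hF v hv
      linarith
  · refine le_trans ?_ (g2.trans ?_)
    · refine TH494.PT.prob_mono fun F _ hF => ?_
      obtain ⟨v, hv, hp⟩ := hF
      refine ⟨v, hv, ?_⟩
      rw [hm]
      exact Nat.le_floor hp
    · refine mul_le_mul_of_nonneg_left (Real.exp_le_exp.mpr ?_) hC.le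
      have := mul_le_mul_of_nonneg_left (Psi_ge_x (n := n) hm1 hx0 (by rw [← hy]; exact hmy)) hc.le
      linarith

/-- the lower tail passes to the limit -/
theorem lim {c C K : ℝ} (hc : 0 < c) (hC : 0 < C)
    (h : ∀ n : ℕ, 1 ≤ n → ∀ x : ℝ, (n:ℝ) ^ (-(13/12) : ℝ) ≤ x → x ≤ 1 →
      Real.exp (-(K * x ^ (-(8/13) : ℝ))) ≤ Plain.prob n (fun F => ∀ v, Plain.Largest n F v →
        (Plain.perimeter F v : ℝ) ≤ x * (n:ℝ) ^ (7/4 : ℝ)) ∧
      Plain.prob n (fun F => ∃ v, Plain.Largest n F v ∧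
        (Plain.perimeterEdges F v : ℝ) ≤ x * (n:ℝ) ^ (7/4 : ℝ)) ≤
        C * Real.exp (-(c * x ^ (-(8/13) : ℝ))))
    {sel : ℕ → Finset Plain.Edge → ℤ × ℤ} (hsel : ∀ n F, Plain.Largest n F (sel n F))
    {φ : ℕ → ℕ} (hφ : Tendsto φ atTop atTop) {μ : ProbabilityMeasure ℝ}
    (hμ : Tendsto (fun i => H342L.lawOf (φ i) fun F =>
      (Plain.perimeter F (sel (φ i) F) : ℝ) / (φ i : ℝ) ^ (7/4 : ℝ)) atTop (𝓝 μ))
    {x : ℝ} (hx0 : 0 < x) (hx : x ≤ 1) :
    ENNReal.ofReal (Real.exp (-(K * x ^ (-(8/13) : ℝ)))) ≤ (μ : Measure ℝ) {y | y ≤ x} ∧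
      (μ : Measure ℝ) {y | y ≤ x} ≤
        ENNReal.ofReal (max C (Real.exp c) * Real.exp (-(c / 2 * x ^ (-(8/13) : ℝ)))) := by
  have hpos : ∀ᶠ i in atTop, 1 ≤ φ i := hφ.eventually_ge_atTop 1
  have hsm : ∀ z : ℝ, 0 < z → ∀ᶠ i in atTop, (φ i : ℝ) ^ (-(13/12) : ℝ) ≤ z := by
    intro z hz
    have ht : Tendsto (fun i => (φ i : ℝ) ^ (-(13/12) : ℝ)) atTop (𝓝 0) :=
      (tendsto_rpow_neg_atTop (by norm_num)).comp (tendsto_natCast_atTop_atTop.comp hφ)
    exact (ht.eventually (gt_mem_nhds hz)).mono fun i hi => hi.le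
  constructor
  · have hG : IsClosed {y : ℝ | y ≤ x} := isClosed_le continuous_id continuous_const
    have h1 := ProbabilityMeasure.limsup_measure_closed_le_of_tendsto hμ hG
    refine le_trans ?_ h1
    have h2 : ∀ᶠ i in atTop, ENNReal.ofReal (Real.exp (-(K * x ^ (-(8/13) : ℝ)))) ≤
        ((H342L.lawOf (φ i) fun F => (Plain.perimeter F (sel (φ i) F) : ℝ) /
          (φ i : ℝ) ^ (7/4 : ℝ) : ProbabilityMeasure ℝ) : Measure ℝ) {y : ℝ | y ≤ x} := by
      filter_upwards [hpos, hsm x hx0] with i hi hi2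
      rw [H342L.lawOf_apply _ _ hG.measurableSet]
      refine ENNReal.ofReal_le_ofReal ((h (φ i) hi x hi2 hx).1.trans ?_)
      refine TH494.PT.prob_mono fun F _ hF => ?_
      have h3 : (0 : ℝ) < (φ i : ℝ) ^ (7/4 : ℝ) :=
        Real.rpow_pos_of_pos (by exact_mod_cast hi) _
      simp only [Set.mem_ofPred_eq]
      rw [div_le_iff₀ h3]
      exact hF _ (hsel _ F)
    calc ENNReal.ofReal (Real.exp (-(K * x ^ (-(8/13) : ℝ)))) =
          limsup (fun _ : ℕ => ENNReal.ofReal (Real.exp (-(K * x ^ (-(8/13) : ℝ))))) atTop :=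
            (limsup_const _).symm
      _ ≤ _ := limsup_le_limsup h2
  · by_cases hx2 : x ≤ 1 / 2
    · have hG : IsOpen {y : ℝ | y < 2 * x} := isOpen_lt continuous_id continuous_const
      have h1 := ProbabilityMeasure.le_liminf_measure_open_of_tendsto hμ hG
      have h3 : (μ : Measure ℝ) {y | y ≤ x} ≤ (μ : Measure ℝ) {y | y < 2 * x} :=
        measure_mono fun p hp => by
          simp only [Set.mem_ofPred_eq] at hp ⊢
          linarith
      refine h3.trans (h1.trans ?_)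
      have h2 : ∀ᶠ i in atTop, ((H342L.lawOf (φ i) fun F =>
            (Plain.perimeter F (sel (φ i) F) : ℝ) /
            (φ i : ℝ) ^ (7/4 : ℝ) : ProbabilityMeasure ℝ) : Measure ℝ) {y : ℝ | y < 2 * x} ≤
          ENNReal.ofReal (max C (Real.exp c) * Real.exp (-(c / 2 * x ^ (-(8/13) : ℝ)))) := by
        filter_upwards [hpos, hsm (2 * x) (by positivity)] with i hi hi2
        rw [H342L.lawOf_apply _ _ hG.measurableSet]
        refine ENNReal.ofReal_le_ofReal ?_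
        have h4 := (h (φ i) hi (2 * x) hi2 (by linarith)).2
        refine le_trans ?_ (h4.trans ?_)
        · refine TH494.PT.prob_mono fun F _ hF => ⟨_, hsel _ F, ?_⟩
          have h3 : (0 : ℝ) < (φ i : ℝ) ^ (7/4 : ℝ) :=
            Real.rpow_pos_of_pos (by exact_mod_cast hi) _
          simp only [Set.mem_ofPred_eq] at hF
          rw [div_lt_iff₀ h3] at hF
          refine le_trans ?_ hF.le
          exact_mod_cast Plain.perimeterEdges_le F _
        · refine mul_le_mul (le_max_left _ _) (Real.exp_le_exp.mpr ?_) (Real.exp_pos _).le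
            (hC.le.trans (le_max_left _ _))
          have e1 : (1/2 : ℝ) * x ^ (-(8/13) : ℝ) ≤ (2 * x) ^ (-(8/13) : ℝ) := by
            rw [Real.mul_rpow (by norm_num) hx0.le]
            refine mul_le_mul_of_nonneg_right ?_ (by positivity)
            calc (1/2 : ℝ) = (2:ℝ) ^ (-1 : ℝ) := by
                  rw [Real.rpow_neg (by norm_num), Real.rpow_one, one_div]
              _ ≤ (2:ℝ) ^ (-(8/13) : ℝ) :=
                  Real.rpow_le_rpow_of_exponent_le (by norm_num) (by norm_num)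
          have e2 := mul_le_mul_of_nonneg_left e1 hc.le
          linarith
      calc liminf (fun i => ((H342L.lawOf (φ i) fun F => (Plain.perimeter F (sel (φ i) F) : ℝ) /
            (φ i : ℝ) ^ (7/4 : ℝ) : ProbabilityMeasure ℝ) : Measure ℝ) {y : ℝ | y < 2 * x}) atTop ≤
            liminf (fun _ : ℕ => ENNReal.ofReal
              (max C (Real.exp c) * Real.exp (-(c / 2 * x ^ (-(8/13) : ℝ))))) atTop :=
              liminf_le_liminf h2
        _ = _ := liminf_const _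
    · push Not at hx2
      have h1 : (μ : Measure ℝ) {y | y ≤ x} ≤ 1 := prob_le_one
      refine h1.trans ?_
      rw [← ENNReal.ofReal_one]
      refine ENNReal.ofReal_le_ofReal ?_
      have e1 : x ^ (-(8/13) : ℝ) ≤ 2 := by
        calc x ^ (-(8/13) : ℝ) ≤ (1/2 : ℝ) ^ (-(8/13) : ℝ) :=
              Real.rpow_le_rpow_of_nonpos (by norm_num) hx2.le (by norm_num)
          _ = (2:ℝ) ^ (8/13 : ℝ) := by
              rw [one_div, Real.inv_rpow (by norm_num), Real.rpow_neg (by norm_num), inv_inv]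
          _ ≤ (2:ℝ) ^ (1 : ℝ) :=
              Real.rpow_le_rpow_of_exponent_le (by norm_num) (by norm_num)
          _ = 2 := Real.rpow_one _
      have e2 : (1:ℝ) = Real.exp c * Real.exp (-c) := by
        rw [← Real.exp_add]; simp
      rw [e2]
      refine mul_le_mul (le_max_right _ _) (Real.exp_le_exp.mpr ?_) (Real.exp_pos _).le
        (hC.le.trans (le_max_left _ _))
      have e3 := mul_le_mul_of_nonneg_left e1 (show 0 ≤ c / 2 by positivity)
      linarith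

end W78LT
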