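import Pool.Agent.W2helper78.LT.Fin

/-!
Project LT: the final statement from the pieces.
-/

set_option autoImplicit false

namespace W78LT

open H974 Finset H342P H984P H984H TH992.L MeasureTheory Filter Topology

theorem final (hU : St_Upp) (hL : St_Lwr) {c2 C2 : ℝ} (hc2 : 0 < c2) (hC2 : 0 < C2)
    (htail : ∀ n : ℕ, 1 ≤ n → ∀ x : ℝ, 0 ≤ x → Plain.prob n (fun F => ∃ v, Plain.Largest n F v ∧
      x * (n : ℝ) ^ (7/4 : ℝ) ≤ (Plain.perimeter F v : ℝ)) ≤ C2 * Real.exp (-(c2 * x ^ 8))) :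
    ∃ c C : ℝ, 0 < c ∧ 0 < C ∧
    (∀ n m : ℕ, 1 ≤ n → 1 ≤ m → (m : ℝ) ≤ (n : ℝ) ^ (7/4 : ℝ) →
      Real.exp (-(C * Psi n m)) ≤
        Plain.prob n (fun F => ∀ v, Plain.Largest n F v → Plain.perimeter F v ≤ m) ∧
      Plain.prob n (fun F => ∃ v, Plain.Largest n F v ∧ Plain.perimeterEdges F v ≤ m) ≤
        C * Real.exp (-(c * Psi n m))) ∧
    (∀ n : ℕ, 1 ≤ n → ∀ x : ℝ, (n : ℝ) ^ (-(13/12) : ℝ) ≤ x → x ≤ 1 →
      Real.exp (-(C * x ^ (-(8/13) : ℝ))) ≤ Plain.prob n (fun F => ∀ v, Plain.Largest n F v →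
        (Plain.perimeter F v : ℝ) ≤ x * (n : ℝ) ^ (7/4 : ℝ)) ∧
      Plain.prob n (fun F => ∃ v, Plain.Largest n F v ∧
        (Plain.perimeterEdges F v : ℝ) ≤ x * (n : ℝ) ^ (7/4 : ℝ)) ≤
        C * Real.exp (-(c * x ^ (-(8/13) : ℝ)))) ∧
    (∀ n : ℕ, 1 ≤ n → ∀ ε : ℝ, 0 < ε → ε ≤ 13/12 →
      Real.exp (-(C * (n : ℝ) ^ (8 * ε / 13))) ≤
        Plain.prob n (fun F => ∀ v, Plain.Largest n F v →
          (Plain.perimeter F v : ℝ) ≤ (n : ℝ) ^ (7/4 - ε : ℝ)) ∧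
      Plain.prob n (fun F => ∃ v, Plain.Largest n F v ∧
          ((Plain.perimeterEdges F v : ℝ) ≤ (n : ℝ) ^ (7/4 - ε : ℝ) ∨
            (n : ℝ) ^ (7/4 + ε : ℝ) ≤ (Plain.perimeter F v : ℝ))) ≤
        C * Real.exp (-(c * (n : ℝ) ^ (8 * ε / 13)))) ∧
    (∀ sel : ℕ → Finset Plain.Edge → ℤ × ℤ, (∀ n F, Plain.Largest n F (sel n F)) →
      ∀ φ : ℕ → ℕ, Tendsto φ atTop atTop → ∀ μ : ProbabilityMeasure ℝ,
      Tendsto (fun i => H342L.lawOf (φ i) fun F =>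
        (Plain.perimeter F (sel (φ i) F) : ℝ) / (φ i : ℝ) ^ (7/4 : ℝ)) atTop (𝓝 μ) →
      ∀ x : ℝ, 0 < x → x ≤ 1 →
        ENNReal.ofReal (Real.exp (-(C * x ^ (-(8/13) : ℝ)))) ≤ (μ : Measure ℝ) {y | y ≤ x} ∧
        (μ : Measure ℝ) {y | y ≤ x} ≤
          ENNReal.ofReal (C * Real.exp (-(c * x ^ (-(8/13) : ℝ))))) := by
  obtain ⟨c1, C1, hc1, hC1, hp⟩ := plain hU hL
  obtain ⟨c, hcd⟩ : ∃ c, c = min (c1 / 2) c2 := ⟨_, rfl⟩
  obtain ⟨C, hCd⟩ : ∃ C, C = 4 * C1 + Real.exp c1 + C2 := ⟨_, rfl⟩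
  have hexp := Real.exp_pos c1
  have hc0 : 0 < c := by rw [hcd]; exact lt_min (by positivity) hc2
  have hcc1 : c ≤ c1 / 2 := by rw [hcd]; exact min_le_left _ _
  have hcc2 : c ≤ c2 := by rw [hcd]; exact min_le_right _ _
  have hC0 : 0 < C := by rw [hCd]; positivity
  have hnorm := fun n (hn : 1 ≤ n) x hx hx1 => norm hc1 hC1 hp (n := n) hn (x := x) hx hx1
  refine ⟨c, C, hc0, hC0, fun n m hn hm hmn => ?_, fun n hn x hx hx1 => ?_,
    fun n hn ε hε hε1 => ?_, fun sel hsel φ hφ μ hμ x hx0 hx => ?_⟩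
  · obtain ⟨g1, g2⟩ := hp n m hn hm hmn
    have hP := Psi_nonneg n m
    constructor
    · refine le_trans (Real.exp_le_exp.mpr ?_) g1
      have : C1 * Psi n m ≤ C * Psi n m := mul_le_mul_of_nonneg_right (by linarith) hP
      linarith
    · refine g2.trans (mul_le_mul (by linarith) (Real.exp_le_exp.mpr ?_) (Real.exp_pos _).le hC0.le)
      have : c * Psi n m ≤ c1 * Psi n m := mul_le_mul_of_nonneg_right (by linarith) hP
      linarith
  · obtain ⟨g1, g2⟩ := hnorm n hn x hx hx1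
    have hnR : (0:ℝ) < n := by exact_mod_cast hn
    have hx0 : 0 < x := lt_of_lt_of_le (Real.rpow_pos_of_pos hnR _) hx
    have hX : 0 ≤ x ^ (-(8/13) : ℝ) := by positivity
    constructor
    · refine le_trans (Real.exp_le_exp.mpr ?_) g1
      have : 4 * C1 * x ^ (-(8/13) : ℝ) ≤ C * x ^ (-(8/13) : ℝ) :=
        mul_le_mul_of_nonneg_right (by linarith) hX
      linarith
    · refine g2.trans (mul_le_mul (by linarith) (Real.exp_le_exp.mpr ?_) (Real.exp_pos _).le hC0.le)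
      have : c * x ^ (-(8/13) : ℝ) ≤ c1 * x ^ (-(8/13) : ℝ) :=
        mul_le_mul_of_nonneg_right (by linarith) hX
      linarith
  · have hnR : (1:ℝ) ≤ n := by exact_mod_cast hn
    have hn0 : (0:ℝ) < n := by linarith
    obtain ⟨N, hN⟩ : ∃ N, N = (n : ℝ) ^ (8 * ε / 13) := ⟨_, rfl⟩
    have hN0 : 0 ≤ N := by rw [hN]; positivity
    have hx1 : (n:ℝ) ^ (-ε) ≤ 1 := Real.rpow_le_one_of_one_le_of_nonpos hnR (by linarith)
    have hx2 : (n:ℝ) ^ (-(13/12) : ℝ) ≤ (n:ℝ) ^ (-ε) :=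
      Real.rpow_le_rpow_of_exponent_le hnR (by linarith)
    obtain ⟨g1, g2⟩ := hnorm n hn _ hx2 hx1
    have e1 : ((n:ℝ) ^ (-ε)) ^ (-(8/13) : ℝ) = N := by
      rw [hN, ← Real.rpow_mul hn0.le]
      congr 1
      ring
    have e2 : (n:ℝ) ^ (-ε) * (n : ℝ) ^ (7/4 : ℝ) = (n : ℝ) ^ (7/4 - ε : ℝ) := by
      rw [← Real.rpow_add hn0]
      congr 1
      ring
    have e3 : (n:ℝ) ^ ε * (n : ℝ) ^ (7/4 : ℝ) = (n : ℝ) ^ (7/4 + ε : ℝ) := by
      rw [← Real.rpow_add hn0]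
      congr 1
      ring
    rw [e1, e2] at g1 g2
    have g3 := htail n hn ((n:ℝ) ^ ε) (by positivity)
    rw [e3] at g3
    have e4 : N ≤ ((n:ℝ) ^ ε) ^ 8 := by
      rw [hN, ← Real.rpow_natCast, ← Real.rpow_mul hn0.le]
      refine Real.rpow_le_rpow_of_exponent_le hnR ?_
      push_cast
      linarith
    rw [← hN]
    constructor
    · refine le_trans (Real.exp_le_exp.mpr ?_) g1
      have : 4 * C1 * N ≤ C * N := mul_le_mul_of_nonneg_right (by linarith) hN0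
      linarith
    · have h1 : Plain.prob n (fun F => ∃ v, Plain.Largest n F v ∧
          ((Plain.perimeterEdges F v : ℝ) ≤ (n : ℝ) ^ (7/4 - ε : ℝ) ∨
            (n : ℝ) ^ (7/4 + ε : ℝ) ≤ (Plain.perimeter F v : ℝ))) ≤
          Plain.prob n (fun F => ∃ v, Plain.Largest n F v ∧
            (Plain.perimeterEdges F v : ℝ) ≤ (n : ℝ) ^ (7/4 - ε : ℝ)) +
          Plain.prob n (fun F => ∃ v, Plain.Largest n F v ∧
            (n : ℝ) ^ (7/4 + ε : ℝ) ≤ (Plain.perimeter F v : ℝ)) := by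
        rw [Plain.prob_eq, Plain.prob_eq, Plain.prob_eq]
        refine le_trans (Pr_mono hok fun F _ hF => ?_) (Pr_or_le hok _ _ _)
        obtain ⟨v, hv, h | h⟩ := hF
        · exact Or.inl ⟨v, hv, h⟩
        · exact Or.inr ⟨v, hv, h⟩
      have h2 : C1 * Real.exp (-(c1 * N)) ≤ C1 * Real.exp (-(c * N)) := by
        refine mul_le_mul_of_nonneg_left (Real.exp_le_exp.mpr ?_) hC1.le
        have : c * N ≤ c1 * N := mul_le_mul_of_nonneg_right (by linarith) hN0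
        linarith
      have h3 : C2 * Real.exp (-(c2 * ((n:ℝ) ^ ε) ^ 8)) ≤ C2 * Real.exp (-(c * N)) := by
        refine mul_le_mul_of_nonneg_left (Real.exp_le_exp.mpr ?_) hC2.le
        have : c * N ≤ c2 * ((n:ℝ) ^ ε) ^ 8 := mul_le_mul hcc2 e4 hN0 hc2.le
        linarith
      have h4 : (C1 + C2) * Real.exp (-(c * N)) ≤ C * Real.exp (-(c * N)) :=
        mul_le_mul_of_nonneg_right (by linarith) (Real.exp_pos _).le
      linarith
  · obtain ⟨g1, g2⟩ := lim hc1 hC1 hnorm hsel hφ hμ hx0 hx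
    have hX : 0 ≤ x ^ (-(8/13) : ℝ) := by positivity
    constructor
    · refine le_trans (ENNReal.ofReal_le_ofReal (Real.exp_le_exp.mpr ?_)) g1
      have : 4 * C1 * x ^ (-(8/13) : ℝ) ≤ C * x ^ (-(8/13) : ℝ) :=
        mul_le_mul_of_nonneg_right (by linarith) hX
      linarith
    · refine g2.trans (ENNReal.ofReal_le_ofReal ?_)
      refine mul_le_mul (max_le (by linarith) (by linarith)) (Real.exp_le_exp.mpr ?_)
        (Real.exp_pos _).le hC0.le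
      have : c * x ^ (-(8/13) : ℝ) ≤ c1 / 2 * x ^ (-(8/13) : ℝ) :=
        mul_le_mul_of_nonneg_right hcc1 hX
      linarith

end W78LT
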