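import Pool.Agent.TH992.L.ChainPr
import Pool.Agent.TH992.T.Low1
import Pool.Agent.H342R2.Per.Upper

/-!
Project LT: the lower tail of the outer perimeter of the largest critical cluster (statements).
Bond percolation at `p = 1/2` in the box `{0, …, n}²`; `per n F v` is the outer perimeter of the
cluster of `v` (`Pool.Agent.H342R2.Per.Model`), `IsMax n F v`: the cluster of `v` has maximal
Euclidean diameter. Goal (`St_Upp`, `St_Lwr`):
`exp (-C Ψ) ≤ P (perimeter of every largest cluster ≤ m)` and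
`P (perimeter of some largest cluster ≤ m) ≤ C exp (-c Ψ)`, `Ψ = max ((n^{7/4}/m)^{8/13}) ((n/m)²)`.
-/

set_option autoImplicit false

namespace W78LT

open H974 Finset H342P H984P H984H TH992.L

/-- probability at `p = 1/2` -/
noncomputable abbrev PP (S : Finset Edg) (A : Finset Edg → Prop) : ℝ :=
  Pr (fun _ => (1/2:ℝ)) S A

/-- the rate -/
noncomputable def Psi (n m : ℕ) : ℝ :=
  max (((n:ℝ) ^ (7/4 : ℝ) / m) ^ (8/13 : ℝ)) (((n:ℝ) / m) ^ 2)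

/-- upper bound for the lower tail -/
def St_Upp : Prop := ∃ c C : ℝ, 0 < c ∧ 0 < C ∧ ∀ n m : ℕ, 1 ≤ n → 1 ≤ m →
  (m:ℝ) ≤ (n:ℝ) ^ (7/4 : ℝ) →
  PP (RE 0 n 0 n) (fun F => ∃ v, IsMax n (↑F) v ∧ per n (↑F) v ≤ m) ≤
    C * Real.exp (-(c * Psi n m))

/-- lower bound for the lower tail -/
def St_Lwr : Prop := ∃ C : ℝ, 0 < C ∧ ∀ n m : ℕ, 1 ≤ n → 1 ≤ m →
  (m:ℝ) ≤ (n:ℝ) ^ (7/4 : ℝ) →
  Real.exp (-(C * Psi n m)) ≤
    PP (RE 0 n 0 n) (fun F => ∀ v, IsMax n (↑F) v → per n (↑F) v ≤ m)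

/-! ## Lower bound: a largest cluster in a tube

`a ≥ 1` is the width of the tube, `g = t a` the scale of a grid of closed dual lines, the tube is
`[0, 16 g] × [0, a]`. -/

/-- decreasing events -/
def DecrE (S : Finset Edg) (A : Finset Edg → Prop) : Prop :=
  ∀ F G, F ⊆ G → G ⊆ S → A G → A F

/-- **Piece NF** (abstract; independence and Harris). Increasing events `A i` with supports in
`T1`, decreasing events `D j` with supports in `T2` (disjoint from `T1`), an event `W` with support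
`K`; all events except those with `i ∈ I0`, `j ∈ J0` have supports disjoint from `K`.
Proof: let `far` be the intersection of the `A i`, `i ∈ I \ I0`, and the `D j`, `j ∈ J \ J0`; it
is supported on `S \ K`, so `PP (W ∧ all) ≤ PP (W ∧ far) = PP W * PP far` (`Pr_indep`). Further
`PP all = PP (∀ A) * PP (∀ D)` (`Pr_indep` on `T1`, `T2`), `PP (∀ A) ≥ PP (far A) * q ^ #I0`
(`Pr_harris` and induction on `I0`), similarly for `D` (Harris for decreasing events: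
`Pr_harris_dd`), and `PP far = PP (far A) * PP (far D)`. -/
def St_NF : Prop := ∀ (S T1 T2 K : Finset Edg) (A D : ℕ → Finset Edg → Prop)
  (sA sD : ℕ → Finset Edg) (I J I0 J0 : Finset ℕ) (q : ℝ) (W : Finset Edg → Prop),
  T1 ⊆ S → T2 ⊆ S → Disjoint T1 T2 → K ⊆ S → I0 ⊆ I → J0 ⊆ J → 0 < q →
  (∀ i ∈ I, IncrE S (A i)) → (∀ j ∈ J, DecrE S (D j)) →
  (∀ i ∈ I, sA i ⊆ T1) → (∀ j ∈ J, sD j ⊆ T2) →
  (∀ i ∈ I, ∀ F, F ⊆ S → (A i F ↔ A i (F ∩ sA i))) →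
  (∀ j ∈ J, ∀ F, F ⊆ S → (D j F ↔ D j (F ∩ sD j))) →
  (∀ i ∈ I, i ∉ I0 → Disjoint (sA i) K) → (∀ j ∈ J, j ∉ J0 → Disjoint (sD j) K) →
  (∀ i ∈ I0, q ≤ PP S (A i)) → (∀ j ∈ J0, q ≤ PP S (D j)) →
  (∀ F, F ⊆ S → (W F ↔ W (F ∩ K))) →
  q ^ (I0.card + J0.card) * PP S (fun F => W F ∧ (∀ i ∈ I, A i F) ∧ ∀ j ∈ J, D j F) ≤
    PP S W * PP S (fun F => (∀ i ∈ I, A i F) ∧ ∀ j ∈ J, D j F)

/-- **Piece NF**, second part: the lower bound for the probability of all events. -/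
def St_NL : Prop := ∀ (S T1 T2 : Finset Edg) (A D : ℕ → Finset Edg → Prop)
  (sA sD : ℕ → Finset Edg) (I J : Finset ℕ) (x y : ℕ → ℝ),
  T1 ⊆ S → T2 ⊆ S → Disjoint T1 T2 →
  (∀ i ∈ I, IncrE S (A i)) → (∀ j ∈ J, DecrE S (D j)) →
  (∀ i ∈ I, sA i ⊆ T1) → (∀ j ∈ J, sD j ⊆ T2) →
  (∀ i ∈ I, ∀ F, F ⊆ S → (A i F ↔ A i (F ∩ sA i))) →
  (∀ j ∈ J, ∀ F, F ⊆ S → (D j F ↔ D j (F ∩ sD j))) →
  (∀ i ∈ I, 0 ≤ x i ∧ x i ≤ PP S (A i)) → (∀ j ∈ J, 0 ≤ y j ∧ y j ≤ PP S (D j)) →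
  (∏ i ∈ I, x i) * (∏ j ∈ J, y j) ≤ PP S (fun F => (∀ i ∈ I, A i F) ∧ ∀ j ∈ J, D j F)

/-- the closed edges, in the lattice of faces (`(x, y)` is the face with this lower left corner) -/
noncomputable abbrev dc (n : ℕ) (F : Finset Edg) : Finset Edg := dmp (RE 0 n 0 n \ F)

/-- open crossings, steps of the tube -/
def OA (a j : ℕ) (F : Finset Edg) : Prop :=
  LRc ((j:ℤ) * a) (((j:ℤ) + 2) * a) 0 a F ∧ TBc (((j:ℤ) + 1) * a) (((j:ℤ) + 2) * a) 0 a F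

/-- closed dual crossings above the tube -/
def UA (n a j : ℕ) (F : Finset Edg) : Prop :=
  LRc ((j:ℤ) * a - 1) (((j:ℤ) + 2) * a) a (2 * a) (dc n F) ∧
    TBc (((j:ℤ) + 1) * a - 1) (((j:ℤ) + 2) * a) a (2 * a) (dc n F)

/-- closed dual crossings: to the right of the tube, and from the tube upwards in column `10 g` -/
def NA (n a g : ℕ) (F : Finset Edg) : Prop :=
  TBc (16 * (g:ℤ) + a) (16 * (g:ℤ) + 2 * a) (-1) (2 * a) (dc n F) ∧
    TBc (10 * (g:ℤ)) (11 * (g:ℤ)) a (2 * (g:ℤ)) (dc n F)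

/-- the closed dual grid away from the tube -/
def ZA (n g : ℕ) (F : Finset Edg) : Prop :=
  LRc (10 * (g:ℤ)) (11 * (g:ℤ)) g (2 * (g:ℤ)) (dc n F) ∧
  TBc (10 * (g:ℤ)) (11 * (g:ℤ)) g n (dc n F) ∧
  (∀ i : ℕ, 2 ≤ i → 10 * (g:ℤ) * i + g + 1 ≤ n →
    TBc (10 * (g:ℤ) * i) (10 * (g:ℤ) * i + g) (-1) n (dc n F)) ∧
  (∀ j : ℕ, 1 ≤ j → 10 * (g:ℤ) * j + g + 1 ≤ n →
    LRc (-1) n (10 * (g:ℤ) * j) (10 * (g:ℤ) * j + g) (dc n F))

/-- all the decreasing events, indexed by `j < 16 t + 3` -/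
def DD (n a t j : ℕ) (F : Finset Edg) : Prop :=
  (j < 16 * t + 1 → UA n a j F) ∧ (j = 16 * t + 1 → NA n a (t * a) F) ∧
    (j = 16 * t + 2 → ZA n (t * a) F)

/-- the tube event -/
def EE (n a t : ℕ) (F : Finset Edg) : Prop :=
  (∀ i ∈ range (16 * t - 1), OA a i F) ∧ ∀ j ∈ range (16 * t + 3), DD n a t j F

/-- the parameters -/
structure Adm (n a t : ℕ) : Prop where
  ha : 1 ≤ a
  ht : 5 ≤ t
  hn : 16 * (t * a) + 3 * a + 1 ≤ n

/-- **Piece EVL**: supports of the events. Take `T1 = RE 0 (16 t a) 0 a`,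
`T2 = RE 0 n 0 n \ T1`, `sO i = RE (i a) ((i+2) a) 0 a`; the primal edges which belong to a dual
crossing event are given by `dmp_LRE : dmp (LRE a b c d) = TBE a (b-1) (c-1) d` and
`dmp_TBE : dmp (TBE a b c d) = LRE (a-1) b c (d-1)`: e.g.
`LRc (ja-1) ((j+2)a) a (2a) (dc n F)` depends on the edges `TBE (ja) ((j+2)a) a (2a+1)` (vertical
edges with `a ≤ y`, horizontal edges with `a < y`: not in `T1`), and
`TBc ((j+1)a-1) ((j+2)a) a (2a) (dc n F)` on `LRE ((j+1)a-1) ((j+2)a+1) (a+1) (2a)`;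
`NA`: `LRE (16g+a) (16g+2a+1) 0 (2a)` and `LRE (10g) (11g+1) (a+1) (2g)`;
`ZA`: `TBE (10g+1) (11g) g (2g+1)`, `LRE (10g) (11g+1) (g+1) n`, `LRE (10gi) (10gi+g+1) 0 n`
(`i ≥ 2`), `TBE 0 n (10gj) (10gj+g+1)` (`j ≥ 1`): for `ZA` one can take as support all edges of
`RE 0 n 0 n` with `20 g ≤ x` (source) or (`y ≥ g` and not horizontal with `y = g`). Since
`g = t a ≥ 3 a + 2` (`t ≥ 5`), this support is disjoint from every box `K` of radius `≤ a` around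
a vertex of `[0, 16 g + 2 a] × [0, 2 a]`. -/
def St_EVL : Prop := ∀ n a t : ℕ, Adm n a t →
  ∃ (T1 T2 : Finset Edg) (sO sD : ℕ → Finset Edg),
    T1 ⊆ RE 0 n 0 n ∧ T2 ⊆ RE 0 n 0 n ∧ Disjoint T1 T2 ∧
    (∀ i ∈ range (16 * t - 1), IncrE (RE 0 n 0 n) (OA a i) ∧ sO i ⊆ T1 ∧
      ∀ F, F ⊆ RE 0 n 0 n → (OA a i F ↔ OA a i (F ∩ sO i))) ∧
    (∀ j ∈ range (16 * t + 3), DecrE (RE 0 n 0 n) (DD n a t j) ∧ sD j ⊆ T2 ∧
      ∀ F, F ⊆ RE 0 n 0 n → (DD n a t j F ↔ DD n a t j (F ∩ sD j))) ∧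
    ∀ (u : Vtx) (r : ℤ), 0 ≤ u.1 → u.1 ≤ 16 * (t * a) + 2 * a → 0 ≤ u.2 → u.2 ≤ 2 * a → r ≤ a →
      (∀ i ∈ range (16 * t - 1), 5 * (a:ℤ) < |(i:ℤ) * a - u.1| →
        Disjoint (sO i) (RE (u.1 - r) (u.1 + r) (u.2 - r) (u.2 + r))) ∧
      (∀ j ∈ range (16 * t + 3), (j < 16 * t + 1 → 5 * (a:ℤ) < |(j:ℤ) * a - u.1|) →
        j ≠ 16 * t + 1 → Disjoint (sD j) (RE (u.1 - r) (u.1 + r) (u.2 - r) (u.2 + r)))

/-- **Piece EVP**: probabilities of the events. `q0 = (1/2)^767 ≤ hh (1/2) w h` for `w ≤ 8 h`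
(`TH992.T.hh_wide` with `m = 0`), `pr_LRc`, `pr_TBc` (probabilities of crossings in terms of
`hh`), Harris for the conjunction of two crossings; dual crossings by `H12S.pr_dual` (pattern:
`TH992.T.dstrips`): `PP S (fun F => A (dmp (S \ F))) = PP (dmp S) A`. In `ZA` use
`TH992.T.strips` / `dstrips` (and its transposed version): every strip of length `≤ n + 1` and
width `g` is crossed with probability at least `q0 ^ (2 m + 1)`, `n + 1 ≤ 8 g m + 8 g`,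
`m ≤ n / g`, and there are at most `n / (10 g)` strips in each direction (for `n ≥ 16 g` one has
`1 ≤ n / g`), so that the product is `≥ q0 ^ (C (n/g)²)`. -/
def St_EVP : Prop := ∃ C : ℝ, 0 < C ∧ ∀ n a t : ℕ, Adm n a t →
  (∀ i ∈ range (16 * t - 1), TH992.T.q0 ^ 2 ≤ PP (RE 0 n 0 n) (OA a i)) ∧
  (∀ j < 16 * t + 1, TH992.T.q0 ^ 2 ≤ PP (RE 0 n 0 n) (UA n a j)) ∧
  TH992.T.q0 ^ 2 ≤ PP (RE 0 n 0 n) (NA n a (t * a)) ∧
  Real.exp (-(C * ((n:ℝ) / (t * a)) ^ 2)) ≤ PP (RE 0 n 0 n) (ZA n (t * a))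

/-- **Piece SEP** (deterministic). On the tube event every cluster of maximal diameter is inside
`[0, 16 g + 2 a] × [0, 2 a]` (`g = t a`) and has diameter at least `16 g`.
Proof. (1) Gluing (`glue` of `H974R2.Cross` and its transpose): the `OA` give
`LRc 0 (16 g) 0 a F`; the `UA` give `LRc (-1) (16 g + 2 a) a (2 a) (dc n F)`; the second part of
`NA` and the first two of `ZA` give `TBc (10 g) (11 g) a n (dc n F)`.
(2) Blocking (`no_both`, `no_both_TB`; an open LR crossing of `[a,b] × [c,d]` excludes a dual TB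
crossing of the faces `[a,b-1] × [c-1,d]`, an open TB crossing of `[a,b] × [c,d]` excludes a dual
LR crossing of the faces `[a-1,b] × [c,d-1]`): there is no open
(B1) LR crossing of `[10g, 11g+1] × [a+1, n]`, (B2) LR crossing of `[10gi, 10gi+g+1] × [0,n]`
(`i ≥ 2`), (B3) TB crossing of `[0,n] × [10gj, 10gj+g+1]` (`j ≥ 1`), (B4) TB crossing of
`[0, 16g+2a] × [a, 2a+1]`, (B5) LR crossing of `[16g+a, 16g+2a+1] × [0, 2a]`
(`LRc_of_reach`, `TBc_of_reach`, `sub_LR`, `sub_TB`, `first_exit` give crossings from paths).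
(3) So every cluster has `y`-extent `≤ 11 g` (B3; let `j ≥ 1` be minimal with `10gj ≥ y_min`),
and `x`-extent `≤ 11 g` (B2) unless it has `x_min ≤ 10 g` and `x_max ≥ 11 g + 1`; in the latter
case by (B1) it has a vertex in `[10g, 11g+1] × [0, a]`, and by (B4), (B5) (first exit from
`[0,16g+2a] × [0,2a]`) it is inside `[0, 16g+2a] × [0,2a]`.
(4) The open crossing of the tube has `dsq ≥ (16 g)² = 256 g²`, a cluster with both extents
`≤ 11 g` has `dsq ≤ 242 g²`. -/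
def St_SEP : Prop := ∀ (n a t : ℕ) (F : Finset Edg) (v : Vtx), Adm n a t → F ⊆ RE 0 n 0 n →
  EE n a t F → IsMax n (↑F) v →
  (∀ w, Reach (↑F : Set Edg) v w → inR 0 (16 * (t * a) + 2 * a) 0 (2 * a) w) ∧
    ∃ c d, Reach (↑F : Set Edg) v c ∧ Reach (↑F : Set Edg) v d ∧ 256 * ((t:ℤ) * a) ^ 2 ≤ dsq c d

/-- the radius of the two-arm event of `u` -/
def rr (a : ℤ) (u : Vtx) : ℤ := min a (min u.1 u.2)

/-- number of two-arm pairs in `[0, X] × [0, Y]` -/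
noncomputable def NT (X Y a : ℤ) (F : Set Edg) : ℝ :=
  ∑ e ∈ RE 0 X 0 Y, (ind (Two (src e) (dsrc e) (rr a (src e)) F) +
    ind (Two (src e) (dtgt e) (rr a (src e)) F))

/-- **Piece PS** (deterministic, adapt `H342P.per_le`): the perimeter of a cluster inside
`[0,X] × [0,Y]` of (squared) diameter at least `8 a²` is at most `NT X Y a`. Use `dsq_lt` to get a
vertex `w` of the cluster with `FarF (src e) (rr a (src e)) w`, and `two_of_outer` (it only needs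
`rr a (src e) ≤ (src e).1`). The edges of the cluster are in `RE 0 X 0 Y`. -/
def St_PS : Prop := ∀ (n : ℕ) (X Y a : ℤ) (F : Finset Edg) (v : Vtx), F ⊆ RE 0 n 0 n → 0 < a →
  X ≤ n → Y ≤ n → (∀ w, Reach (↑F : Set Edg) v w → inR 0 X 0 Y w) →
  (∃ c d, Reach (↑F : Set Edg) v c ∧ Reach (↑F : Set Edg) v d ∧ 8 * a ^ 2 ≤ dsq c d) →
  (per n (↑F) v : ℝ) ≤ NT X Y a (↑F)

/-- **Piece SUM** (as in `H342R2.Per.Sum`): `ph C s (min a (min x y)) ≤ ph C s a + ph C s x +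
ph C s y`, `∑_{x ≤ N} ph C s x ≤ 1 + C N^{3/4} / (3/4)` (`sum_ph_le`), the tube has
`(16 t a + 2 a + 1)(2 a + 1)` vertices and at most twice as many edges. -/
def St_SUM : Prop := ∀ C : ℝ, 0 < C → ∃ C' : ℝ, 0 < C' ∧ ∀ a t : ℕ, 1 ≤ a → 1 ≤ t →
  ∑ e ∈ RE 0 (16 * ((t:ℤ) * a) + 2 * a) 0 (2 * (a:ℤ)), 2 * ph C (1/4) (rr a (src e)) ≤
    C' * (t * (a:ℝ) ^ (7/4 : ℝ))

/-- **Piece ASM** (helper78): the probability of a small perimeter, from the pieces above, by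
Markov's inequality conditionally on the tube event. -/
def St_ASM : Prop := ∃ C1 C2 : ℝ, 0 < C1 ∧ 0 < C2 ∧ ∀ n a t : ℕ, Adm n a t →
  Real.exp (-(C2 * (t + ((n:ℝ) / (t * a)) ^ 2))) ≤
    PP (RE 0 n 0 n) (fun F => ∀ v, IsMax n (↑F) v →
      (per n (↑F) v : ℝ) ≤ C1 * (t * (a:ℝ) ^ (7/4 : ℝ)))

/-- **Piece OPTL** (real numbers only). With `k = (n^{7/4}/m)^{8/13} ≥ 1` and
`ω = (m³/n²)^{4/13}` one has `k ω^{7/4} = m`, `k^{3/2} ω = n`, `(n/m)² = k ω^{-3/2}`, so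
`Psi n m = max k (k ω^{-3/2})`. Choose `ε` small.
Case `ε ω ≥ 1`: `a = ⌊ε ω⌋`, `t = ⌈5 k⌉` (then `t ≤ 6 k`, `a ≥ ε ω / 2`,
`19 t a ≤ 114 ε k ω ≤ 114 ε n`, `n / (t a) ≤ (2/(5 ε)) k^{1/2}`).
Case `ε ω < 1` (so `m³ ≤ C n²`): if `m ≥ C0` and `n ≥ n0` take `a = 1`, `t = ⌊m / C1⌋`
(`t ≤ m/C1 ≤ C (n/m)²`, `n / t ≤ C n / m`); otherwise the last alternative holds
(`Psi ≥ 1` and `Psi ≥ (n/m)²`). -/
def St_OPTL : Prop := ∀ C1 C2 : ℝ, 0 < C1 → 0 < C2 → ∃ C : ℝ, 0 < C ∧ ∀ n m : ℕ, 1 ≤ n → 1 ≤ m →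
  (m:ℝ) ≤ (n:ℝ) ^ (7/4 : ℝ) →
  (∃ a t : ℕ, Adm n a t ∧ C1 * (t * (a:ℝ) ^ (7/4 : ℝ)) ≤ m ∧
    C2 * (t + ((n:ℝ) / (t * a)) ^ 2) ≤ C * Psi n m) ∨
  2 * ((n:ℝ) + 1) ^ 2 ≤ C * Psi n m

/-! ## Upper bound: chains of blocks of side `W` -/

/-- **Piece NB2** (two-dimensional version of `H342P.pr_not_big`, file
`Pool/Agent/H342R2/Per/Big.lean`): the `K²` squares `[i(L+1), i(L+1)+L] × [j(L+1), j(L+1)+L]`,
`i, j < K`, are edge disjoint, each is crossed with probability at least `1/2`; a crossing of one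
of them gives `dsq ≥ L² ≥ 9 m² ≥ 8 m²`. -/
def St_NB2 : Prop := ∀ (n L K : ℕ) (m : ℤ), 0 < L → 0 ≤ m → 3 * m ≤ L → K * (L + 1) ≤ n + 1 →
  PP (RE 0 n 0 n) (fun F => ¬ Big n m (↑F)) ≤ (1/2) ^ (K * K)

/-- lower left corner of the window of a block (a coordinate) -/
def wx (n W x : ℤ) : ℤ := max 0 (min ((x - 1) * W) (n - 3 * W))

/-- the window of the block `q`: a square of side `3 W` inside the box which contains all
vertices of the box within the blocks next to `q` -/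
noncomputable def Win (n W : ℤ) (q : Vtx) : Finset Edg :=
  RE (wx n W q.1) (wx n W q.1 + 3 * W) (wx n W q.2) (wx n W q.2 + 3 * W)

/-- distance to the boundary of the window -/
def wd (n W : ℤ) (q u : Vtx) : ℤ :=
  bdr (wx n W q.1) (wx n W q.1 + 3 * W) (wx n W q.2) (wx n W q.2 + 3 * W) u

/-- fast piece of an orbit in the window -/
def BadS (n W R R1 : ℤ) (M : ℕ) (q : Vtx) (F : Finset Edg) : Prop :=
  ∃ (σ : St) (t : ℕ), inR (wx n W q.1 + R1) (wx n W q.1 + 3 * W - R1)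
      (wx n W q.2 + R1) (wx n W q.2 + 3 * W - R1) σ.1 ∧
    Far σ.1 R (orb (↑(F ∩ Win n W q) : Set Edg) σ t).1 ∧ t < M

/-- long open path in the layer along the boundary of the window -/
def BadY (n W R1 m : ℤ) (q : Vtx) (F : Finset Edg) : Prop :=
  ∃ u v : Vtx, m ≤ sd u v ∧ Reach ((↑(F ∩ Win n W q) : Set Edg) ∩
    {e | wd n W q (src e) < R1 ∧ wd n W q (tgt e) < R1}) u v

/-- the bad event of a block -/
def BadW (n W R R1 m : ℤ) (M : ℕ) (q : Vtx) (F : Finset Edg) : Prop :=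
  BadS n W R R1 M q F ∨ BadY n W R1 m q F

/-- the parameters -/
structure ParW (W R R1 m : ℤ) : Prop where
  hR : 1 ≤ R
  hRR : R < R1
  hm : 1 ≤ m
  hW : m + R + 1 ≤ W
  hW2 : 4 * R1 ≤ 3 * W

/-- **Piece WP**: the bad event has small probability. Parameters: `δ`, `c'` from `allOk_of`
(trials succeed with probability `δ` at every scale, `M = ⌈c' a^{7/4}⌉`), `R = 124 a (K+1)`,
`R1 = 3 R + 60 a`, `m = (4 m' + 16) R1`, `W = m + R1 = (4 m' + 17) R1 = Γ a` with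
`Γ = (4 m' + 17)(372 (K+1) + 60)`; first choose `m'`, then `K`.
`BadY`: `layer_rect` (any rectangle; restrict to the window by `Pr_local`) gives
`≤ 4 (6 W / R1 + 4) (1/2)^{m'}`. `BadS`: translate the window to `RE 0 (3W) 0 (3W)` as in
`H984H.bulk_sq_pr` (`trl`, `bulk_orb`), then `low_steps` with `n := 3 W`, `K := K + 1`:
`≤ C (3 Γ + 1)² (1 - δ)^K`. Model: `TH992.L.bad_pr`. -/
def St_WP : Prop := ∀ c C : ℝ, 0 < c → 0 < C → LowA c (1/4) → TwoUp C (1/4) → ∀ η : ℝ, 0 < η →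
  ∃ (Γ : ℕ) (c' : ℝ), 1 ≤ Γ ∧ 0 < c' ∧ ∀ a : ℕ, 5 ≤ a → ∃ R R1 m : ℤ,
    ParW (Γ * a) R R1 m ∧ ∀ (n : ℕ) (q : Vtx) (S : Finset Edg), 3 * ((Γ:ℤ) * a) ≤ n →
      Win n (Γ * a) q ⊆ S →
      PP S (BadW n (Γ * a) R R1 m ⌈c' * (a:ℝ) ^ (7/4 : ℝ)⌉₊ q) ≤ η

/-- a block which meets the box -/
def Blk0 (n W : ℤ) (q : Vtx) : Prop :=
  0 ≤ q.1 ∧ q.1 * W ≤ n ∧ 0 ≤ q.2 ∧ q.2 * W ≤ n

/-- the bad chain event: a chain of `k + 1` different neighbouring blocks of which many, in one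
residue class mod 7, are bad -/
def Chn (n W R R1 m : ℤ) (M k : ℕ) (F : Finset Edg) : Prop :=
  ∃ p : Vtx, Blk0 n W p ∧ ∃ Q ∈ AS k p, Q.card = k + 1 ∧ ∃ B ∈ Q.powerset,
    (∀ q ∈ B, ∀ r ∈ B, cls q = cls r) ∧ k + 1 ≤ 98 * B.card ∧
    ∀ q ∈ B, Blk0 n W q ∧ BadW n W R R1 m M q F

/-- **Piece CU**: union bound for the bad chain event. Locality (`BadW` depends on `F ∩ Win`,
`Win ⊆ RE 0 n 0 n` if `3 W ≤ n`), disjointness of the windows of different blocks `q, r` with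
`Blk0` and `cls q = cls r` (then a coordinate differs by at least 7, `cls_far`; e.g. if
`q.1 ≥ r.1 + 7` then `wx r.1 + 3 W ≤ (r.1 + 3) W < (q.1 - 3) W ≤ wx q.1`), independence
(`TH992.T.Ex_prod_indep`, as in `TH992.L.all_bad`), then the union over `p` (at most
`(n/W + 1)²`), `Q` (at most `9^k`), `B` (at most `2^{k+1}`), as in `TH992.L.chain_pr`. -/
def St_CU : Prop := ∀ (n : ℕ) (W R R1 m : ℤ) (M k : ℕ), 1 ≤ W → 3 * W ≤ n →
  (∀ (q : Vtx) (S : Finset Edg), Win n W q ⊆ S →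
    PP S (BadW n W R R1 m M q) ≤ (1/36) ^ 98) →
  PP (RE 0 n 0 n) (Chn n W R R1 m M k) ≤ ((n:ℝ) / W + 1) ^ 2 * (1/2) ^ (k + 1)

/-- the boundary orbit of a largest cluster: period `p`, injective on a period, two states at
distance at least `2 D`, and `p` is at most eight times the perimeter -/
structure Orbd (n : ℕ) (D : ℤ) (F : Finset Edg) (v : Vtx) (σ : St) (p T : ℕ) : Prop where
  pos : 0 < p
  per : orb (↑F : Set Edg) σ p = σ
  inj : ∀ i j, i < p → j < p → orb (↑F : Set Edg) σ i = orb (↑F : Set Edg) σ j → i = j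
  lt : T < p
  far : 2 * D ≤ sd σ.1 (orb (↑F : Set Edg) σ T).1
  box : ∀ s, inR 0 n 0 n (orb (↑F : Set Edg) σ s).1
  le : p ≤ 8 * H342P.per n (↑F) v

/-- **Piece ORB**: extract from the proof of `H984P.per_big` (file
`Pool/Agent/H984R3/Per/PerBig.lean`): `σ` is a state `orb (vL, nw) t1`, `vL` a leftmost vertex of
the cluster, chosen such that a later state is at distance `≥ 2 D` (`orb_extent`); `p` is the
minimal period (`pb_period`, `nxt_bij`); the `p` states are distinct, all are counted in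
`nc4 σ F (Bx 0 0 n)` (`pb_reach`, `pb_dreach`), and `nc4 ≤ 8 per` (`per_ge`). -/
def St_ORB : Prop := ∀ (n : ℕ) (D : ℤ) (F : Finset Edg) (v : Vtx), F ⊆ RE 0 n 0 n → 0 < D →
  Big n D (↑F) → IsMax n (↑F) v → ∃ (σ : St) (p T : ℕ), Orbd n D F v σ p T

/-- **Piece DET** (deterministic): without a bad chain the period is at least `(k+1) M / 98`.
`β s = blk W (orb σ s).1`; `chain` (with `n := T`, `s := 0`) gives a set `Q` of `k + 1` visited
blocks (all satisfy `Blk0` since the orbit stays in the box), `pigeon` a class with at least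
`(k+1)/49` of them; if half of these were bad the bad chain event would hold; so at least
`(k+1)/98` blocks `q` of one class are good. For a good visited block `q = β τ`: let `e ≥ τ` be
the first time with `W ≤ sd (orb τ).1 (orb e).1` (exists, because of the two far states
`σ`, `orb σ T` and periodicity, `sd ≥ 2 D ≥ 2 W`); `e - τ < p` (else `e - p` would be an earlier
such time, by periodicity, or `orb e` would be ...), the states `τ, …, e` are distinct and within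
distance `≤ W` of `(orb τ).1`, so in the blocks next to `q` and in the window (all their edges
are in `Win n W q`). Let `e1` be the first time with `m ≤ sd (orb τ).1 (orb e1).1`: since `BadY`
fails, some `s ∈ [τ, e1]` has `R1 ≤ wd n W q (orb s).1` (as in `pb_leave`); then
`sd (orb s).1 (orb e).1 ≥ W - m ≥ R + 1`, and since the orbit before its first exit from the box
of radius `R` around `(orb s).1` only examines edges of the window (`orb_congr`; `R < R1`),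
`¬ BadS` gives `M ≤ e - s`. So at least `M` of the `p` states of the orbit are in blocks at
distance `≤ 1` from `q`; these sets of states are disjoint for different `q` of one class
(`cls_far`), so `#good * M ≤ p` (as in `count_times`). -/
def St_DET : Prop := ∀ (n : ℕ) (W R R1 m D : ℤ) (M k : ℕ) (F : Finset Edg) (v : Vtx) (σ : St)
  (p T : ℕ), ParW W R R1 m → 3 * W ≤ n → F ⊆ RE 0 n 0 n → 1 ≤ k → ((k:ℤ) + 1) * W ≤ 2 * D →
  Orbd n D F v σ p T → ¬ Chn n W R R1 m M k F → (k + 1) * M ≤ 98 * p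

/-- **Piece OPTU** (real numbers only). `k0 = (n^{7/4}/m)^{8/13} ≥ 1`, `ω = (m³/n²)^{4/13}`,
`k0 ω^{7/4} = m`, `k0^{3/2} ω = n`, `(n/m)² = k0 ω^{-3/2}`, `Psi n m = max k0 (k0 ω^{-3/2})`.
If `k0` is bounded the first alternative holds (when also `ω ≥ 5/B`, so that `Psi ≤ C k0`).
Case `B ω ≥ 5` (`B` large): `a = ⌈B ω⌉`, `k + 1 = ⌊δ k0⌋`, `D = ⌈(k+1) Γ a / 2⌉`, `L = 3 D`,
`K = ⌊ε k0^{1/2}⌋`: `(k+1) c' a^{7/4} ≥ (δ/2) c' B^{7/4} m`, `K (L+1) ≤ C δ B Γ ε k0^{3/2} ω ≤ n`,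
`(n/(Γ a) + 1)² ≤ 4 k0³`. Case `B ω < 5`: `D = 4 m + 1`, `L = 3 D`, `K = ⌊(n+1)/(L+1)⌋`, where
`Psi ≤ C (n/m)²`; if `n/m` is bounded use the first alternative. -/
def St_OPTU : Prop := ∀ (Γ : ℕ) (c' : ℝ), 1 ≤ Γ → 0 < c' → ∃ c C : ℝ, 0 < c ∧ 0 < C ∧
  ∀ n m : ℕ, 1 ≤ n → 1 ≤ m → (m:ℝ) ≤ (n:ℝ) ^ (7/4 : ℝ) →
  1 ≤ C * Real.exp (-(c * Psi n m)) ∨
  (∃ D L K : ℕ, 0 < L ∧ 8 * m < 2 * D ∧ 3 * D ≤ L ∧ K * (L + 1) ≤ n + 1 ∧
    (1/2 : ℝ) ^ (K * K) ≤ C * Real.exp (-(c * Psi n m))) ∨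
  (∃ a k D L K : ℕ, 5 ≤ a ∧ 1 ≤ k ∧ 3 * (Γ * a) ≤ n ∧
    784 * (m:ℝ) < (k + 1) * (c' * (a:ℝ) ^ (7/4 : ℝ)) ∧ (k + 1) * (Γ * a) ≤ 2 * D ∧ 0 < D ∧
    0 < L ∧ 3 * D ≤ L ∧ K * (L + 1) ≤ n + 1 ∧
    (1/2 : ℝ) ^ (K * K) + ((n:ℝ) / (Γ * a) + 1) ^ 2 * (1/2) ^ (k + 1) ≤
      C * Real.exp (-(c * Psi n m)))

end W78LT
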